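import Mathlib

/-!
# A non-real root of the Hilbert polynomial
-/

namespace Pool.Agent.X221.Koszul

open Polynomial

/-- The Hilbert polynomial. -/
noncomputable def hpol : Polynomial ℂ :=
  1 + 11 * X + 39 * X ^ 2 + 59 * X ^ 3 + 39 * X ^ 4 + 11 * X ^ 5 + X ^ 6

theorem hpol_coeff (i : ℕ) : hpol.coeff i = (([1, 11, 39, 59, 39, 11, 1].getD i 0 : ℕ) : ℂ) := by
  have e : hpol = C 1 * X ^ 0 + C 11 * X ^ 1 + C 39 * X ^ 2 + C 59 * X ^ 3 + C 39 * X ^ 4 +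
      C 11 * X ^ 5 + C 1 * X ^ 6 := by
    rw [hpol]
    simp only [map_one, pow_zero, mul_one, pow_one, one_mul]
    have h11 : (C 11 : Polynomial ℂ) = 11 := map_ofNat C 11
    have h39 : (C 39 : Polynomial ℂ) = 39 := map_ofNat C 39
    have h59 : (C 59 : Polynomial ℂ) = 59 := map_ofNat C 59
    rw [h11, h39, h59]
  rw [e]
  simp only [coeff_add, coeff_C_mul, coeff_X_pow]
  by_cases hi : i < 7
  · interval_cases i <;> simp
  · have h : ∀ k < 7, i ≠ k := fun k hk => by omega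
    rw [if_neg (h 0 (by norm_num)), if_neg (h 1 (by norm_num)), if_neg (h 2 (by norm_num)),
      if_neg (h 3 (by norm_num)), if_neg (h 4 (by norm_num)), if_neg (h 5 (by norm_num)),
      if_neg (h 6 (by norm_num))]
    rw [List.getD_eq_getElem?_getD, List.getElem?_eq_none (by simpa using hi)]
    simp

theorem exists_real_root : ∃ r : ℝ, r ≤ -163 / 40 ∧ -5 ≤ r ∧ r ^ 3 + 5 * r ^ 2 + 4 * r + 1 = 0 := by
  have hc : ContinuousOn (fun r : ℝ => r ^ 3 + 5 * r ^ 2 + 4 * r + 1) (Set.Icc (-5) (-163 / 40)) :=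
    by fun_prop
  have h := intermediate_value_Icc (by norm_num : (-5 : ℝ) ≤ -163 / 40) hc
  have h0 : (0 : ℝ) ∈ Set.Icc ((-5 : ℝ) ^ 3 + 5 * (-5) ^ 2 + 4 * (-5) + 1)
      ((-163 / 40 : ℝ) ^ 3 + 5 * (-163 / 40) ^ 2 + 4 * (-163 / 40) + 1) := by
    constructor <;> norm_num
  obtain ⟨r, hr, hr'⟩ := h h0
  exact ⟨r, hr.2, hr.1, hr'⟩

theorem exists_nonreal_s : ∃ s : ℂ, s.im ≠ 0 ∧ s ^ 3 + 5 * s ^ 2 + 4 * s + 1 = 0 := by
  obtain ⟨r, h1, h2, h3⟩ := exists_real_root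
  have hd : 0 < -(9 - 10 * r - 3 * r ^ 2) := by nlinarith
  set y := Real.sqrt (-(9 - 10 * r - 3 * r ^ 2)) / 2 with hy
  have hy0 : 0 < y := by
    have := Real.sqrt_pos.2 hd
    positivity
  have hyy : y ^ 2 = -(9 - 10 * r - 3 * r ^ 2) / 4 := by
    rw [hy, div_pow, Real.sq_sqrt hd.le]; norm_num
  refine ⟨⟨-(5 + r) / 2, y⟩, hy0.ne', ?_⟩
  have hs : (⟨-(5 + r) / 2, y⟩ : ℂ) = (-(5 + r) / 2 : ℝ) + (y : ℝ) * Complex.I := by
    apply Complex.ext <;> simp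
  rw [hs]
  set x : ℝ := -(5 + r) / 2 with hx
  have hq : ((x : ℂ) + y * Complex.I) ^ 2 + (5 + r) * ((x : ℂ) + y * Complex.I) +
      (4 + 5 * r + r ^ 2) = 0 := by
    have e1 : ((x : ℂ) + y * Complex.I) ^ 2 = ((x ^ 2 - y ^ 2 : ℝ) : ℂ) + (2 * x * y : ℝ) * Complex.I
        := by
      push_cast
      ring_nf
      rw [Complex.I_sq]
      ring
    have e2 : x ^ 2 - y ^ 2 + (5 + r) * x + (4 + 5 * r + r ^ 2) = 0 := by
      rw [hyy, hx]; ring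
    have e3 : 2 * x * y + (5 + r) * y = 0 := by rw [hx]; ring
    rw [e1]
    have e4 : ((x ^ 2 - y ^ 2 : ℝ) : ℂ) + (2 * x * y : ℝ) * Complex.I +
        (5 + r) * ((x : ℂ) + y * Complex.I) + (4 + 5 * r + r ^ 2) =
        ((x ^ 2 - y ^ 2 + (5 + r) * x + (4 + 5 * r + r ^ 2) : ℝ) : ℂ) +
        ((2 * x * y + (5 + r) * y : ℝ) : ℂ) * Complex.I := by
      push_cast; ring
    rw [e4, e2, e3]; simp
  have h3' : (r : ℂ) ^ 3 + 5 * r ^ 2 + 4 * r + 1 = 0 := by exact_mod_cast h3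
  set s : ℂ := (x : ℂ) + y * Complex.I with hsdef
  have : s ^ 3 + 5 * s ^ 2 + 4 * s + 1 = (s - r) * (s ^ 2 + (5 + r) * s + (4 + 5 * r + r ^ 2)) +
      (r ^ 3 + 5 * r ^ 2 + 4 * r + 1) := by ring
  rw [this, hq, h3']; ring

theorem exists_nonreal_root : ∃ z : ℂ, z.im ≠ 0 ∧ hpol.IsRoot z := by
  obtain ⟨s, hs, hs'⟩ := exists_nonreal_s
  obtain ⟨d, hd⟩ := IsAlgClosed.exists_pow_nat_eq ((2 - s) ^ 2 - 4) (n := 2) (by norm_num)
  obtain ⟨z, hz⟩ : ∃ z : ℂ, (1 + z) ^ 2 = s * z := by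
    refine ⟨(-(2 - s) + d) / 2, ?_⟩
    have : (1 + (-(2 - s) + d) / 2) ^ 2 - s * ((-(2 - s) + d) / 2) =
      (d ^ 2 - ((2 - s) ^ 2 - 4)) / 4 := by ring
    rw [hd, sub_self, zero_div, sub_eq_zero] at this
    exact this
  refine ⟨z, ?_, ?_⟩
  · intro h0
    have hz' : z = (z.re : ℂ) := by apply Complex.ext <;> simp [h0]
    have h1 := congrArg Complex.im hz
    rw [hz'] at h1
    have h2 : ((1 + (z.re : ℂ)) ^ 2).im = 0 := by
      have : (1 + (z.re : ℂ)) ^ 2 = (((1 + z.re) ^ 2 : ℝ) : ℂ) := by push_cast; ring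
      rw [this, Complex.ofReal_im]
    rw [h2, Complex.im_mul_ofReal] at h1
    rcases mul_eq_zero.1 h1.symm with h | h
    · exact hs h
    · rw [hz', h] at hz
      simp at hz
  · rw [IsRoot.def, hpol]
    simp only [eval_add, eval_mul, eval_pow, eval_X, eval_one, eval_ofNat]
    have : 1 + 11 * z + 39 * z ^ 2 + 59 * z ^ 3 + 39 * z ^ 4 + 11 * z ^ 5 + z ^ 6 =
        ((1 + z) ^ 2) ^ 3 + 5 * z * ((1 + z) ^ 2) ^ 2 + 4 * z ^ 2 * (1 + z) ^ 2 + z ^ 3 := by ring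
    rw [this, hz]
    have : (s * z) ^ 3 + 5 * z * (s * z) ^ 2 + 4 * z ^ 2 * (s * z) + z ^ 3 =
        z ^ 3 * (s ^ 3 + 5 * s ^ 2 + 4 * s + 1) := by ring
    rw [this, hs', mul_zero]

end Pool.Agent.X221.Koszul
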