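import Mathlib

/-!
# Linear resolutions from Koszul filtrations

`A` is a commutative algebra over a field `k` with a space `A1` of elements of degree one and
component operators.  From a family of ideals with the colon property of a Koszul filtration we
construct an infinite linear free resolution.
-/

namespace Pool.Agent.X221.Koszul

open Finset

variable {k A : Type} [Field k] [CommRing A] [Algebra k A]

/-- Component operators of a graded algebra. -/
structure Comps (A1 : Submodule k A) where
  /-- the component operators -/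
  c : ℕ → A →ₗ[k] A
  mul : ∀ x ∈ A1, ∀ f n, c (n + 1) (x * f) = x * c n f
  zero_mul : ∀ x ∈ A1, ∀ f, c 0 (x * f) = 0
  one_mem : ∀ f, c 1 f ∈ A1
  one_id : ∀ x ∈ A1, c 1 x = x

variable {A1 : Submodule k A} (C : Comps A1)

/-- Graded submodules of a free module. -/
def Graded {ι : Type} (N : Submodule A (ι → A)) : Prop :=
  ∀ v ∈ N, ∀ n, (fun i => C.c n (v i)) ∈ N

/-- The inclusion of the first block. -/
def inlMap (ι κ : Type) : (ι → A) →ₗ[A] (ι ⊕ κ → A) where
  toFun u := Sum.elim u 0
  map_add' u v := by ext (i | i) <;> simp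
  map_smul' r u := by ext (i | i) <;> simp

/-- The projection to the second block. -/
def sndMap (ι κ : Type) : (ι ⊕ κ → A) →ₗ[A] (κ → A) := LinearMap.funLeft A A Sum.inr

lemma sndMap_apply {ι κ : Type} (v : ι ⊕ κ → A) (j : κ) : sndMap ι κ v j = v (Sum.inr j) := rfl

/-- The submodule of the rank one free module given by an ideal. -/
def idealSub (I : Ideal A) : Submodule A (Unit → A) where
  carrier := {v | v () ∈ I}
  add_mem' := fun h h' => I.add_mem h h'
  zero_mem' := I.zero_mem
  smul_mem' := fun r _ h => I.mul_mem_left r h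

lemma mem_idealSub {I : Ideal A} {v : Unit → A} : v ∈ idealSub I ↔ v () ∈ I := Iff.rfl

/-- The class of submodules built from a family of ideals. -/
inductive Q {T : Type} (I : T → Ideal A) : (ι : Type) → Submodule A (ι → A) → Prop
  | bot (ι : Type) : Q I ι ⊥
  | ideal (t : T) : Q I Unit (idealSub (I t))
  | block (ι κ : Type) (N : Submodule A (ι ⊕ κ → A)) : Graded C N →
      Q I ι (N.comap (inlMap ι κ)) → Q I κ (N.map (sndMap ι κ)) → Q I (ι ⊕ κ) N

/-- The kernel of the map given by a family of vectors. -/
noncomputable def kerF {ι κ : Type} [Fintype κ] (g : κ → ι → A) : Submodule A (κ → A) :=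
  LinearMap.ker (Fintype.linearCombination A g)

lemma mem_kerF {ι κ : Type} [Fintype κ] {g : κ → ι → A} {v : κ → A} :
    v ∈ kerF g ↔ ∑ j, v j • g j = 0 := by
  rw [kerF, LinearMap.mem_ker, Fintype.linearCombination_apply]

lemma mem_span_iff {ι κ : Type} [Fintype κ] {g : κ → ι → A} {v : ι → A} :
    v ∈ Submodule.span A (Set.range g) ↔ ∃ a : κ → A, ∑ j, a j • g j = v := by
  rw [← Fintype.range_linearCombination]
  rfl

include C in
lemma kerF_graded {ι κ : Type} [Fintype κ] {g : κ → ι → A} (hg : ∀ j i, g j i ∈ A1) :
    Graded C (kerF g) := by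
  intro v hv n
  rw [mem_kerF] at hv ⊢
  ext i
  have h1 : ∑ j, g j i * v j = 0 := by
    have := congrFun hv i
    simp only [Finset.sum_apply, Pi.smul_apply, smul_eq_mul, Pi.zero_apply] at this
    rw [← this]
    exact sum_congr rfl fun j _ => mul_comm _ _
  have h2 := congrArg (C.c (n + 1)) h1
  rw [map_sum, map_zero] at h2
  simp only [Finset.sum_apply, Pi.smul_apply, smul_eq_mul, Pi.zero_apply]
  rw [← h2]
  exact sum_congr rfl fun j _ => by rw [C.mul _ (hg j i), mul_comm]

/-- One step of a linear resolution. -/
def Step (A1 : Submodule k A) (P : (κ : Type) → Submodule A (κ → A) → Prop) {ι : Type}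
    (N : Submodule A (ι → A)) : Prop :=
  ∃ (κ : Type) (_ : Fintype κ) (g : κ → ι → A), (∀ j i, g j i ∈ A1) ∧
    Submodule.span A (Set.range g) = N ∧ P κ (kerF g)

/-- The horseshoe lemma. -/
theorem horseshoe {T : Type} {I : T → Ideal A} {ι κ : Type} {N : Submodule A (ι ⊕ κ → A)}
    (hN : Graded C N) (h1 : Step A1 (Q C I) (N.comap (inlMap ι κ)))
    (h2 : Step A1 (Q C I) (N.map (sndMap ι κ))) : Step A1 (Q C I) N := by
  obtain ⟨ι', _, g', hg', hs', hk'⟩ := h1
  obtain ⟨κ', _, g'', hg'', hs'', hk''⟩ := h2
  -- lifts
  have hlift : ∀ j, ∃ u : ι → A, (∀ i, u i ∈ A1) ∧ Sum.elim u (g'' j) ∈ N := by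
    intro j
    have : g'' j ∈ N.map (sndMap ι κ) := by
      rw [← hs'']; exact Submodule.subset_span ⟨j, rfl⟩
    obtain ⟨w, hw, hw'⟩ := this
    refine ⟨fun i => C.c 1 (w (Sum.inl i)), fun i => C.one_mem _, ?_⟩
    have h3 := hN w hw 1
    convert h3 using 1
    ext (i | i)
    · rfl
    · have : w (Sum.inr i) = g'' j i := by rw [← hw']; rfl
      simp only [Sum.elim_inr, this, C.one_id _ (hg'' j i)]
  choose u hu hu' using hlift
  let g : ι' ⊕ κ' → (ι ⊕ κ → A) := Sum.elim (fun j => Sum.elim (g' j) 0)
    (fun j => Sum.elim (u j) (g'' j))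
  have hgA : ∀ j i, g j i ∈ A1 := by
    rintro (j | j) (i | i)
    · exact hg' j i
    · exact A1.zero_mem
    · exact hu j i
    · exact hg'' j i
  have hgN : ∀ j, g j ∈ N := by
    rintro (j | j)
    · have : g' j ∈ N.comap (inlMap ι κ) := by
        rw [← hs']; exact Submodule.subset_span ⟨j, rfl⟩
      exact this
    · exact hu' j
  -- the sum over `g`
  have hsum : ∀ a : ι' ⊕ κ' → A, ∑ j, a j • g j =
      inlMap ι κ (∑ j, a (Sum.inl j) • g' j) + ∑ j, a (Sum.inr j) • Sum.elim (u j) (g'' j) := by
    intro a
    rw [Fintype.sum_sum_type, map_sum]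
    congr 1
    refine sum_congr rfl fun j _ => ?_
    rw [map_smul]; rfl
  have hsnd : ∀ a : ι' ⊕ κ' → A, sndMap ι κ (∑ j, a j • g j) =
      ∑ j, a (Sum.inr j) • g'' j := by
    intro a
    have e1 : sndMap ι κ (inlMap ι κ (∑ j, a (Sum.inl j) • g' j)) = 0 := by
      ext i; rfl
    rw [hsum, map_add, e1, zero_add, map_sum]
    refine sum_congr rfl fun j _ => ?_
    rw [map_smul]; rfl
  refine ⟨ι' ⊕ κ', inferInstance, g, hgA, ?_, ?_⟩
  · apply le_antisymm
    · rw [Submodule.span_le]
      rintro _ ⟨j, rfl⟩
      exact hgN j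
    · intro y hy
      have : sndMap ι κ y ∈ N.map (sndMap ι κ) := ⟨y, hy, rfl⟩
      rw [← hs'', mem_span_iff] at this
      obtain ⟨a, ha⟩ := this
      have h3 : y - ∑ j, a j • Sum.elim (u j) (g'' j) ∈ N :=
        N.sub_mem hy (N.sum_mem fun j _ => N.smul_mem _ (hu' j))
      have h4 : y - ∑ j, a j • Sum.elim (u j) (g'' j) =
          inlMap ι κ (fun i => (y - ∑ j, a j • Sum.elim (u j) (g'' j)) (Sum.inl i)) := by
        ext (i | i)
        · rfl
        · have := congrFun ha i
          simp only [Finset.sum_apply, Pi.smul_apply, smul_eq_mul, sndMap_apply] at this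
          simp [inlMap, this]
      rw [h4] at h3
      have h5 : (fun i => (y - ∑ j, a j • Sum.elim (u j) (g'' j)) (Sum.inl i)) ∈
          N.comap (inlMap ι κ) := h3
      rw [← hs', mem_span_iff] at h5
      obtain ⟨b, hb⟩ := h5
      rw [mem_span_iff]
      refine ⟨Sum.elim b a, ?_⟩
      rw [hsum]
      simp only [Sum.elim_inl, Sum.elim_inr]
      rw [hb, ← h4]
      abel
  · refine Q.block _ _ _ (kerF_graded C hgA) ?_ ?_
    · have : (kerF g).comap (inlMap ι' κ') = kerF g' := by
        ext v
        rw [Submodule.mem_comap, mem_kerF, mem_kerF, hsum]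
        have e1 : ∀ j, inlMap ι' κ' v (Sum.inr j) = 0 := fun j => rfl
        have e2 : ∀ j, inlMap ι' κ' v (Sum.inl j) = v j := fun j => rfl
        simp only [e1, e2, zero_smul, sum_const_zero, add_zero]
        constructor
        · intro h
          ext i
          exact congrFun h (Sum.inl i)
        · intro h; rw [h, map_zero]
      rw [this]; exact hk'
    · have : (kerF g).map (sndMap ι' κ') = kerF g'' := by
        ext v
        rw [Submodule.mem_map, mem_kerF]
        constructor
        · rintro ⟨w, hw, rfl⟩
          rw [mem_kerF] at hw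
          have h3 := hsnd w
          rw [hw, map_zero] at h3
          exact h3.symm
        · intro hv
          -- the combination of the lifts lies in the first block
          have h3 : ∑ j, v j • Sum.elim (u j) (g'' j) ∈ N :=
            N.sum_mem fun j _ => N.smul_mem _ (hu' j)
          have h4 : ∑ j, v j • Sum.elim (u j) (g'' j) =
              inlMap ι κ (fun i => (∑ j, v j • Sum.elim (u j) (g'' j)) (Sum.inl i)) := by
            ext (i | i)
            · rfl
            · have := congrFun hv i
              simp only [Finset.sum_apply, Pi.smul_apply, smul_eq_mul, Pi.zero_apply] at this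
              simp [inlMap, this]
          rw [h4] at h3
          have h5 : (fun i => (∑ j, v j • Sum.elim (u j) (g'' j)) (Sum.inl i)) ∈
              N.comap (inlMap ι κ) := h3
          rw [← hs', mem_span_iff] at h5
          obtain ⟨b, hb⟩ := h5
          refine ⟨Sum.elim (-b) v, ?_, rfl⟩
          rw [mem_kerF, hsum]
          simp only [Sum.elim_inl, Sum.elim_inr]
          rw [h4, ← hb, ← map_add]
          have : ∑ j, (-b) j • g' j + ∑ j, b j • g' j = 0 := by
            rw [← sum_add_distrib]
            exact sum_eq_zero fun j _ => by simp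
          rw [this, map_zero]
      rw [this]; exact hk''

/-- A family of ideals with the properties of a Koszul filtration. -/
structure KFilt (A1 : Submodule k A) {T : Type} (I : T → Ideal A) where
  /-- a rank function -/
  rank : T → ℕ
  step : ∀ t, I t = ⊥ ∨ ∃ (s u : T) (x : A), x ∈ A1 ∧ rank s < rank t ∧
    I t = I s ⊔ Ideal.span {x} ∧ ∀ r, r * x ∈ I s ↔ r ∈ I u

theorem step_bot {T : Type} {I : T → Ideal A} {ι : Type} :
    Step A1 (Q C I) (⊥ : Submodule A (ι → A)) := by
  refine ⟨Empty, inferInstance, fun j => j.elim, fun j => j.elim, ?_, ?_⟩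
  · rw [Set.range_eq_empty]; simp
  · have : kerF (fun j : Empty => (j.elim : ι → A)) = ⊥ := by
      ext v
      rw [Submodule.mem_bot, mem_kerF]
      constructor
      · intro _; ext j; exact j.elim
      · intro _; simp
    rw [this]; exact Q.bot _

theorem step_ideal {T : Type} {I : T → Ideal A} (K : KFilt A1 I) (t : T) :
    Step A1 (Q C I) (idealSub (I t)) := by
  generalize hn : K.rank t = n
  induction n using Nat.strong_induction_on generalizing t with
  | _ n ih =>
    rcases K.step t with h | ⟨s, u, x, hx, hr, hI, hcol⟩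
    · have : idealSub (I t) = ⊥ := by
        ext v
        rw [mem_idealSub, h, Submodule.mem_bot (R := A) (x := v)]
        constructor
        · intro h; ext i; exact h
        · intro h; rw [h]; exact Ideal.zero_mem _
      rw [this]; exact step_bot C
    · obtain ⟨κ, _, g, hg, hs, hk⟩ := ih _ (hn ▸ hr) s rfl
      let g' : κ ⊕ Unit → (Unit → A) := Sum.elim g (fun _ _ => x)
      have hg' : ∀ j i, g' j i ∈ A1 := by
        rintro (j | j) i
        · exact hg j i
        · exact hx
      have hsum : ∀ a : κ ⊕ Unit → A, ∑ j, a j • g' j =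
          ∑ j, a (Sum.inl j) • g j + fun _ => a (Sum.inr ()) * x := by
        intro a
        rw [Fintype.sum_sum_type]
        congr 1
        ext i
        simp [g']
      have hmemg : ∀ a : κ → A, (∑ j, a j • g j) () ∈ I s := by
        intro a
        have : ∑ j, a j • g j ∈ idealSub (I s) := by
          rw [← hs, mem_span_iff]; exact ⟨a, rfl⟩
        exact this
      refine ⟨κ ⊕ Unit, inferInstance, g', hg', ?_, ?_⟩
      · apply le_antisymm
        · rw [Submodule.span_le]
          rintro _ ⟨j | j, rfl⟩
          · show g j () ∈ I t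
            rw [hI]
            apply Ideal.mem_sup_left
            have : g j ∈ idealSub (I s) := by
              rw [← hs]; exact Submodule.subset_span ⟨j, rfl⟩
            exact this
          · show x ∈ I t
            rw [hI]
            exact Ideal.mem_sup_right (Ideal.mem_span_singleton_self x)
        · intro v hv
          rw [mem_idealSub, hI, Submodule.mem_sup] at hv
          obtain ⟨y, hy, z, hz, hyz⟩ := hv
          rw [Ideal.mem_span_singleton'] at hz
          obtain ⟨a, rfl⟩ := hz
          have h1 : (fun _ => y : Unit → A) ∈ idealSub (I s) := hy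
          rw [← hs, mem_span_iff] at h1
          obtain ⟨b, hb⟩ := h1
          rw [mem_span_iff]
          refine ⟨Sum.elim b fun _ => a, ?_⟩
          rw [hsum]
          simp only [Sum.elim_inl, Sum.elim_inr]
          rw [hb]
          ext i
          exact hyz
      · refine Q.block _ _ _ (kerF_graded C hg') ?_ ?_
        · have : (kerF g').comap (inlMap κ Unit) = kerF g := by
            ext v
            rw [Submodule.mem_comap, mem_kerF, mem_kerF, hsum]
            have e1 : inlMap κ Unit v (Sum.inr ()) = 0 := rfl
            have e2 : ∀ j, inlMap κ Unit v (Sum.inl j) = v j := fun j => rfl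
            simp only [e1, e2, zero_mul]
            have e3 : (fun _ => 0 : Unit → A) = 0 := rfl
            rw [e3, add_zero]
          rw [this]; exact hk
        · have : (kerF g').map (sndMap κ Unit) = idealSub (I u) := by
            ext v
            rw [Submodule.mem_map, mem_idealSub, ← hcol]
            constructor
            · rintro ⟨w, hw, rfl⟩
              rw [mem_kerF, hsum] at hw
              have h1 := congrFun hw ()
              simp only [Pi.add_apply, Pi.zero_apply] at h1
              have h2 : w (Sum.inr ()) * x = -(∑ j, w (Sum.inl j) • g j) () := by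
                rw [eq_neg_iff_add_eq_zero, add_comm]; exact h1
              rw [sndMap_apply, h2]
              exact (I s).neg_mem (hmemg _)
            · intro hv
              have h1 : (fun _ => v () * x : Unit → A) ∈ idealSub (I s) := hv
              rw [← hs, mem_span_iff] at h1
              obtain ⟨b, hb⟩ := h1
              refine ⟨Sum.elim (-b) v, ?_, by ext i; rfl⟩
              rw [mem_kerF, hsum]
              simp only [Sum.elim_inl, Sum.elim_inr]
              rw [← hb]
              have : ∑ j, (-b) j • g j + ∑ j, b j • g j = 0 := by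
                rw [← sum_add_distrib]
                exact sum_eq_zero fun j _ => by simp
              exact this
          rw [this]; exact Q.ideal u

theorem step_Q {T : Type} {I : T → Ideal A} (K : KFilt A1 I) {ι : Type}
    {N : Submodule A (ι → A)} (h : Q C I ι N) : Step A1 (Q C I) N := by
  induction h with
  | bot ι => exact step_bot C
  | ideal t => exact step_ideal C K t
  | block ι κ N hN _ _ ih1 ih2 => exact horseshoe C hN ih1 ih2

/-! ### Matrices indexed by `Fin` -/

/-- The class for index types `Fin b`. -/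
def QF {T : Type} (I : T → Ideal A) (b : ℕ) (N : Submodule A (Fin b → A)) : Prop :=
  ∃ (ι : Type) (e : ι ≃ Fin b), Q C I ι (N.comap (LinearMap.funLeft A A e.symm))

theorem stepF {T : Type} {I : T → Ideal A} (K : KFilt A1 I) {b : ℕ}
    {N : Submodule A (Fin b → A)} (h : QF C I b N) :
    ∃ (b' : ℕ) (M : Matrix (Fin b) (Fin b') A), (∀ i j, M i j ∈ A1) ∧
      LinearMap.range M.mulVecLin = N ∧ QF C I b' (LinearMap.ker M.mulVecLin) := by
  obtain ⟨ι, e, hQ⟩ := h
  obtain ⟨κ, _, g, hg, hs, hk⟩ := step_Q C K hQ
  let e' := Fintype.equivFin κ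
  let M : Matrix (Fin b) (Fin (Fintype.card κ)) A := fun i j => g (e'.symm j) (e.symm i)
  have hM : ∀ (a : κ → A), M.mulVecLin (a ∘ e'.symm) = (∑ j, a j • g j) ∘ e.symm := by
    intro a
    ext i
    have e1 : M.mulVecLin (a ∘ e'.symm) i = ∑ j, g (e'.symm j) (e.symm i) * a (e'.symm j) := rfl
    have e2 : ((∑ j, a j • g j) ∘ e.symm) i = ∑ j, a j * g j (e.symm i) := by
      simp only [Function.comp_apply, Finset.sum_apply, Pi.smul_apply, smul_eq_mul]
    rw [e1, e2, ← Equiv.sum_comp e'.symm (fun j => a j * g j (e.symm i))]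
    exact sum_congr rfl fun j _ => mul_comm (g (e'.symm j) (e.symm i)) (a (e'.symm j))
  refine ⟨Fintype.card κ, M, fun i j => hg _ _, ?_, κ, e', ?_⟩
  · ext v
    rw [LinearMap.mem_range]
    have hv : v ∈ N ↔ v ∘ e ∈ N.comap (LinearMap.funLeft A A e.symm) := by
      rw [Submodule.mem_comap]
      have : LinearMap.funLeft A A e.symm (v ∘ e) = v := by
        ext i; simp [LinearMap.funLeft]
      rw [this]
    rw [hv, ← hs, mem_span_iff]
    constructor
    · rintro ⟨a, rfl⟩
      refine ⟨a ∘ e', ?_⟩
      have := hM (a ∘ e')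
      have h2 : (a ∘ e') ∘ e'.symm = a := by ext; simp
      rw [h2] at this
      rw [this]
      ext i; simp
    · rintro ⟨a, ha⟩
      refine ⟨a ∘ e'.symm, ?_⟩
      rw [hM, ha]
      ext i; simp
  · have : (LinearMap.ker M.mulVecLin).comap (LinearMap.funLeft A A e'.symm) = kerF g := by
      ext v
      rw [Submodule.mem_comap, LinearMap.mem_ker, mem_kerF]
      have h1 : LinearMap.funLeft A A e'.symm v = v ∘ e'.symm := rfl
      rw [h1, hM]
      constructor
      · intro h
        ext i
        have := congrFun h (e i)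
        simpa using this
      · intro h; rw [h]; rfl
    rw [this]; exact hk

include C in
/-- The infinite linear resolution. -/
theorem exists_resolution {T : Type} {I : T → Ideal A} (K : KFilt A1 I) (t : T) :
    ∃ (b : ℕ → ℕ) (M : (i : ℕ) → Matrix (Fin (b i)) (Fin (b (i + 1))) A), b 0 = 1 ∧
      (∀ i r c, M i r c ∈ A1) ∧
      (∀ v : Fin (b 0) → A, v ∈ LinearMap.range (M 0).mulVecLin ↔ ∀ j, v j ∈ I t) ∧
      ∀ i, LinearMap.range (M (i + 1)).mulVecLin = LinearMap.ker (M i).mulVecLin := by
  let S := Σ b : ℕ, {N : Submodule A (Fin b → A) // QF C I b N}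
  let N0 : Submodule A (Fin 1 → A) := (idealSub (I t)).comap (LinearMap.funLeft A A fun _ => 0)
  have hN0 : QF C I 1 N0 := by
    refine ⟨Unit, Equiv.ofUnique Unit (Fin 1), ?_⟩
    have : N0.comap (LinearMap.funLeft A A (Equiv.ofUnique Unit (Fin 1)).symm) =
        idealSub (I t) := by
      ext v; rfl
    rw [this]; exact Q.ideal t
  let next : S → S := fun s => ⟨(stepF C K s.2.2).choose,
    ⟨LinearMap.ker (stepF C K s.2.2).choose_spec.choose.mulVecLin,
      (stepF C K s.2.2).choose_spec.choose_spec.2.2⟩⟩
  let mat : (s : S) → Matrix (Fin s.1) (Fin (next s).1) A :=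
    fun s => (stepF C K s.2.2).choose_spec.choose
  have hmat1 : ∀ s : S, ∀ i j, mat s i j ∈ A1 :=
    fun s => (stepF C K s.2.2).choose_spec.choose_spec.1
  have hmat2 : ∀ s : S, LinearMap.range (mat s).mulVecLin = s.2.1 :=
    fun s => (stepF C K s.2.2).choose_spec.choose_spec.2.1
  have hmat3 : ∀ s : S, (next s).2.1 = LinearMap.ker (mat s).mulVecLin := fun s => rfl
  let seq : ℕ → S := fun i => Nat.rec ⟨1, N0, hN0⟩ (fun _ s => next s) i
  refine ⟨fun i => (seq i).1, fun i => mat (seq i), rfl, fun i => hmat1 _, ?_, fun i => ?_⟩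
  · intro v
    rw [hmat2]
    show v ∈ N0 ↔ _
    constructor
    · intro h j
      have hj : j = (0 : Fin 1) := Subsingleton.elim (α := Fin 1) _ _
      rw [hj]; exact h
    · intro h; exact h 0
  · show LinearMap.range (mat (next (seq i))).mulVecLin = _
    rw [hmat2, hmat3]

end Pool.Agent.X221.Koszul
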