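import Mathlib
import Pool.Agent.X221.Koszul.Res

/-!
# Rings defined by quadratic monomials and linear forms

For a vertex set `V`, a relation `non` of pairs and linear forms `θ`, we study the quotient of the
polynomial ring by the monomials `x_u x_v` (`non u v`) and the linear forms.
-/

namespace Pool.Agent.X221.Koszul

open MvPolynomial

/-- Binary trees recording vertex decompositions. -/
inductive Tree where
  | leaf : Tree
  | node (σ : ℕ) (a b : Tree) : Tree

namespace Tree

/-- The leaves of a tree. -/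
def Idx : Tree → Type
  | leaf => Unit
  | node _ a b => a.Idx ⊕ b.Idx

/-- The leaves form a finite type. -/
instance fin : (T : Tree) → Fintype T.Idx
  | leaf => inferInstanceAs (Fintype Unit)
  | node _ a b => @instFintypeSum _ _ (fin a) (fin b)

/-- The list of vertices attached to a leaf. -/
def mono : (T : Tree) → T.Idx → List ℕ
  | leaf, _ => []
  | node _ a _, Sum.inl k => a.mono k
  | node σ _ b, Sum.inr k => σ :: b.mono k

/-- The number of leaves. -/
def size : Tree → ℕ
  | leaf => 1
  | node _ a b => a.size + b.size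

/-- The number of leaves of depth `j`. -/
def hvec : Tree → ℕ → ℕ
  | leaf, 0 => 1
  | leaf, _ + 1 => 0
  | node _ a _, 0 => a.hvec 0
  | node _ a b, j + 1 => a.hvec (j + 1) + b.hvec j

theorem card_idx (T : Tree) : Fintype.card T.Idx = T.size := by
  induction T with
  | leaf => rfl
  | node σ a b iha ihb =>
    rw [size, ← iha, ← ihb]
    exact Fintype.card_sum

theorem sum_hvec (T : Tree) (j : ℕ) :
    ∑ k : T.Idx, (if (T.mono k).length = j then 1 else 0) = T.hvec j := by
  induction T generalizing j with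
  | leaf =>
    have : ∀ k : Tree.leaf.Idx, (if (Tree.leaf.mono k).length = j then 1 else 0) =
      (if 0 = j then 1 else 0) := fun k => rfl
    rw [Finset.sum_congr rfl fun k _ => this k, Finset.sum_const, Finset.card_univ, card_idx]
    cases j <;> rfl
  | node σ a b iha ihb =>
    have h : ∑ k : (Tree.node σ a b).Idx,
        (if ((Tree.node σ a b).mono k).length = j then 1 else 0) =
        ∑ k : a.Idx, (if (a.mono k).length = j then 1 else 0) +
        ∑ k : b.Idx, (if (σ :: b.mono k).length = j then 1 else 0) :=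
      Fintype.sum_sum_type _
    rw [h, iha]
    cases j with
    | zero => simp [hvec]
    | succ j =>
      rw [hvec, ← ihb]
      simp

end Tree

set_option linter.unusedSectionVars false

variable {V : Type} [Fintype V] {ι : Type}

/-- The ideal of relations. -/
noncomputable def relI (non : V → V → Prop) (θ : ι → V → ℚ) : Ideal (MvPolynomial V ℚ) :=
  Ideal.span ({f | ∃ u v, non u v ∧ f = X u * X v} ∪ {f | ∃ i, f = ∑ v, C (θ i v) * X v})

/-- The ideal of relations together with the variables outside `W`. -/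
noncomputable def relJ (non : V → V → Prop) (θ : ι → V → ℚ) (W : Set V) : Ideal (MvPolynomial V ℚ) :=
  relI non θ ⊔ Ideal.span {f | ∃ u, u ∉ W ∧ f = X u}

variable {non : V → V → Prop} {θ : ι → V → ℚ}

lemma non_mem {u v : V} (h : non u v) : X u * X v ∈ relI non θ :=
  Ideal.subset_span (Or.inl ⟨u, v, h, rfl⟩)

lemma lin_mem (i : ι) : ∑ v, C (θ i v) * X v ∈ relI non θ :=
  Ideal.subset_span (Or.inr ⟨i, rfl⟩)

lemma relI_le_relJ (W : Set V) : relI non θ ≤ relJ non θ W := le_sup_left

lemma X_mem {W : Set V} {u : V} (h : u ∉ W) : X u ∈ relJ non θ W :=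
  Ideal.mem_sup_right (Ideal.subset_span ⟨u, h, rfl⟩)

lemma relJ_le {W : Set V} {K : Ideal (MvPolynomial V ℚ)} (h1 : relI non θ ≤ K)
    (h2 : ∀ u ∉ W, X u ∈ K) : relJ non θ W ≤ K := by
  refine sup_le h1 (Ideal.span_le.2 ?_)
  rintro _ ⟨u, hu, rfl⟩
  exact h2 u hu

/-- The property of a facet used for leaves. -/
def Simp [Fintype ι] (θ : ι → V → ℚ) (F : Set V) : Prop :=
  ∀ v ∈ F, ∃ l : ι → ℚ, ∀ u ∈ F, (u = v → ∑ i, l i * θ i u = 1) ∧
    (u ≠ v → ∑ i, l i * θ i u = 0)

/-- Well formed trees. -/
def WF (non : V → V → Prop) (fac : Set V → Prop) (vx : ℕ → V) : Tree → Set V → Prop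
  | .leaf, W => fac W
  | .node σ a b, W => ∃ N : Set V, (∀ u ∈ W, u ∉ N → non (vx σ) u) ∧
      WF non fac vx a (W \ {vx σ}) ∧ WF non fac vx b N

/-- The monomial of a list. -/
noncomputable def mon (vx : ℕ → V) (l : List ℕ) : MvPolynomial V ℚ :=
  (l.map fun k => X (vx k)).prod

lemma mon_nil (vx : ℕ → V) : mon vx [] = 1 := rfl

lemma mon_cons (vx : ℕ → V) (σ : ℕ) (l : List ℕ) : mon vx (σ :: l) = X (vx σ) * mon vx l := by
  simp [mon]

lemma mon_homog (vx : ℕ → V) (l : List ℕ) : (mon vx l).IsHomogeneous l.length := by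
  induction l with
  | nil => exact isHomogeneous_one V ℚ
  | cons σ l ih =>
    rw [mon_cons, List.length_cons, add_comm]
    exact (isHomogeneous_X ℚ (vx σ)).mul ih

lemma X_mem_of_simp [Fintype ι] {F : Set V} (hF : Simp θ F) (v : V) : X v ∈ relJ non θ F := by
  classical
  by_cases hv : v ∈ F
  · obtain ⟨l, hl⟩ := hF v hv
    have h1 : ∑ i, C (l i) * ∑ u, C (θ i u) * X u ∈ relJ non θ F :=
      Ideal.sum_mem _ fun i _ => Ideal.mul_mem_left _ _ (relI_le_relJ _ (lin_mem i))
    have h2 : ∑ i, C (l i) * ∑ u, C (θ i u) * X u =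
        (∑ u, C (∑ i, l i * θ i u) * X u : MvPolynomial V ℚ) := by
      simp only [Finset.mul_sum, map_sum, map_mul, Finset.sum_mul]
      rw [Finset.sum_comm]
      exact Finset.sum_congr rfl fun u _ => Finset.sum_congr rfl fun i _ => by ring
    rw [h2, ← Finset.sum_erase_add _ _ (Finset.mem_univ v), (hl v hv).1 rfl, map_one,
      one_mul] at h1
    have h3 : ∑ u ∈ Finset.univ.erase v, C (∑ i, l i * θ i u) * X u ∈ relJ non θ F := by
      refine Ideal.sum_mem _ fun u hu => ?_
      by_cases huF : u ∈ F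
      · rw [(hl u huF).2 (Finset.ne_of_mem_erase hu), map_zero, zero_mul]
        exact Ideal.zero_mem _
      · exact Ideal.mul_mem_left _ _ (X_mem huF)
    have h4 := Ideal.sub_mem _ h1 h3
    rwa [add_sub_cancel_left] at h4
  · exact X_mem hv

/-- Multiplication by the variable of a vertex. -/
lemma X_mul_mem {W N : Set V} {s : V} (h : ∀ u ∈ W, u ∉ N → non s u)
    {f : MvPolynomial V ℚ} (hf : f ∈ relJ non θ N) : X s * f ∈ relJ non θ W := by
  have h1 : relJ non θ N ≤ Submodule.comap
      (LinearMap.mulLeft (MvPolynomial V ℚ) (X s : MvPolynomial V ℚ)) (relJ non θ W) := by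
    refine relJ_le (fun g hg => ?_) (fun u hu => ?_)
    · exact Ideal.mul_mem_left _ _ (relI_le_relJ _ hg)
    · by_cases huW : u ∈ W
      · exact relI_le_relJ _ (non_mem (h u huW hu))
      · exact Ideal.mul_mem_left _ _ (X_mem huW)
  exact h1 hf

theorem spanning [Fintype ι] {fac : Set V → Prop} (hfac : ∀ F, fac F → Simp θ F) {vx : ℕ → V}
    (T : Tree) (W : Set V) (hT : WF non fac vx T W) (f : MvPolynomial V ℚ) :
    ∃ a : T.Idx → ℚ, f - ∑ k, a k • mon vx (T.mono k) ∈ relJ non θ W := by
  induction T generalizing W f with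
  | leaf =>
    have hs := hfac _ hT
    have key : ∀ f : MvPolynomial V ℚ, ∃ r : ℚ, f - C r ∈ relJ non θ W := by
      intro f
      induction f using MvPolynomial.induction_on with
      | C a => exact ⟨a, by rw [sub_self]; exact Ideal.zero_mem _⟩
      | add p q hp hq =>
        obtain ⟨r, hr⟩ := hp
        obtain ⟨r', hr'⟩ := hq
        refine ⟨r + r', ?_⟩
        have := Ideal.add_mem _ hr hr'
        rw [map_add]
        convert this using 1
        ring
      | mul_X p v _ =>
        refine ⟨0, ?_⟩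
        rw [map_zero, sub_zero]
        exact Ideal.mul_mem_left _ _ (X_mem_of_simp hs v)
    obtain ⟨r, hr⟩ := key f
    refine ⟨fun _ => r, ?_⟩
    have e : ∑ k : Tree.leaf.Idx, r • mon vx (Tree.leaf.mono k) = C r := by
      have : ∀ k : Tree.leaf.Idx, r • mon vx (Tree.leaf.mono k) = C r := by
        intro k
        show r • (1 : MvPolynomial V ℚ) = C r
        rw [smul_eq_C_mul, mul_one]
      rw [Finset.sum_congr rfl fun k _ => this k, Finset.sum_const, Finset.card_univ,
        Tree.card_idx]
      simp [Tree.size]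
    rw [e]; exact hr
  | node σ a b iha ihb =>
    obtain ⟨N, hN, ha, hb⟩ := hT
    obtain ⟨a1, h1⟩ := iha _ ha f
    have h2 : relJ non θ (W \ {vx σ}) ≤ relJ non θ W ⊔ Ideal.span {X (vx σ)} := by
      refine relJ_le (le_sup_left.trans' (relI_le_relJ _)) fun u hu => ?_
      by_cases huW : u ∈ W
      · have : u = vx σ := by
          by_contra h
          exact hu ⟨huW, h⟩
        rw [this]
        exact Ideal.mem_sup_right (Ideal.mem_span_singleton_self _)
      · exact Ideal.mem_sup_left (X_mem huW)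
    obtain ⟨y, hy, z, hz, hyz⟩ := Submodule.mem_sup.1 (h2 h1)
    rw [Ideal.mem_span_singleton'] at hz
    obtain ⟨g, rfl⟩ := hz
    obtain ⟨a2, h3⟩ := ihb _ hb g
    have h4 := X_mul_mem hN h3
    refine ⟨Sum.elim a1 a2, ?_⟩
    have e : ∑ k : (Tree.node σ a b).Idx,
        (Sum.elim a1 a2 : (Tree.node σ a b).Idx → ℚ) k • mon vx ((Tree.node σ a b).mono k) =
        ∑ k, a1 k • mon vx (a.mono k) + ∑ k, a2 k • mon vx (σ :: b.mono k) :=
      Fintype.sum_sum_type _
    rw [e]
    have h5 := Ideal.add_mem _ hy h4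
    convert h5 using 1
    simp only [mon_cons]
    rw [mul_sub, Finset.mul_sum]
    have e2 : ∀ k, X (vx σ) * (a2 k • mon vx (b.mono k)) = a2 k • (X (vx σ) * mon vx (b.mono k)) :=
      fun k => mul_smul_comm _ _ _
    simp only [e2]
    have e3 : f - ∑ k, a1 k • mon vx (a.mono k) = y + g * X (vx σ) := hyz.symm
    rw [← sub_sub, e3]
    ring

/-! ### Points -/

/-- The points attached to the facets. -/
structure Points (non : V → V → Prop) (θ : ι → V → ℚ) where
  /-- index type of the facets -/
  L : Type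
  /-- finiteness -/
  fin : Fintype L
  /-- the facets -/
  F : L → Set V
  /-- the points -/
  p : L → V → ℚ
  /-- the common values of the linear forms -/
  c : ι → ℚ
  supp : ∀ t v, p t v ≠ 0 ↔ v ∈ F t
  cl : ∀ t u v, non u v → ¬ (u ∈ F t ∧ v ∈ F t)
  val : ∀ t i, ∑ v, θ i v * p t v = c i
  anti : ∀ t t', F t ⊆ F t' → t = t'

namespace Points

variable (Z : Points non θ)

/-- Facets inside `W`. -/
abbrev In (W : Set V) : Type := {t : Z.L // Z.F t ⊆ W}

/-- evaluation at the points of the facets inside `W`. -/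
noncomputable def ev (W : Set V) : MvPolynomial V ℚ →ₐ[ℚ] (Z.In W → ℚ) :=
  aeval fun v t => Z.p t.1 v

/-- Values of polynomials of degree less than `j`. -/
noncomputable def E (W : Set V) (j : ℕ) : Submodule ℚ (Z.In W → ℚ) :=
  Submodule.span ℚ {g | ∃ i < j, ∃ f : MvPolynomial V ℚ, f.IsHomogeneous i ∧ g = Z.ev W f}

lemma ev_X (W : Set V) (v : V) (t : Z.In W) : Z.ev W (X v) t = Z.p t.1 v := by
  rw [ev, aeval_X]

lemma X_mul_E {W : Set V} {j : ℕ} (v : V) {g : Z.In W → ℚ} (hg : g ∈ Z.E W j) :
    Z.ev W (X v) * g ∈ Z.E W (j + 1) := by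
  have : Z.E W j ≤ (Z.E W (j + 1)).comap (LinearMap.mulLeft ℚ (Z.ev W (X v))) := by
    refine Submodule.span_le.2 ?_
    rintro _ ⟨i, hi, f, hf, rfl⟩
    show Z.ev W (X v) * Z.ev W f ∈ Z.E W (j + 1)
    rw [← map_mul]
    refine Submodule.subset_span ⟨i + 1, by omega, _, ?_, rfl⟩
    rw [add_comm]
    exact (isHomogeneous_X ℚ v).mul hf
  exact this hg

/-- homogeneous components of products with a form of degree one. -/
lemma _root_.Pool.Agent.X221.Koszul.comp_mul {x f : MvPolynomial V ℚ} (hx : x.IsHomogeneous 1)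
    (n : ℕ) : homogeneousComponent (n + 1) (x * f) = x * homogeneousComponent n f := by
  classical
  let _ : GradedAlgebra (homogeneousSubmodule V ℚ) := MvPolynomial.gradedAlgebra
  have h := DirectSum.coe_decompose_mul_add_of_left_mem (homogeneousSubmodule V ℚ)
    (a := x) (b := f) (i := 1) (j := n) ((mem_homogeneousSubmodule 1 x).2 hx)
  have e1 : (DirectSum.decompose (homogeneousSubmodule V ℚ) (x * f) (1 + n) :
      MvPolynomial V ℚ) = homogeneousComponent (1 + n) (x * f) :=
    MvPolynomial.decomposition.decompose'_apply _ _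
  have e2 : (DirectSum.decompose (homogeneousSubmodule V ℚ) f n :
      MvPolynomial V ℚ) = homogeneousComponent n f :=
    MvPolynomial.decomposition.decompose'_apply _ _
  rw [e1, e2] at h
  rw [add_comm n 1]
  exact h

lemma _root_.Pool.Agent.X221.Koszul.comp_zero_mul {x f : MvPolynomial V ℚ}
    (hx : x.IsHomogeneous 1) : homogeneousComponent 0 (x * f) = 0 := by
  rw [homogeneousComponent_zero]
  have h : coeff 0 (x * f) = coeff 0 x * coeff 0 f := map_mul constantCoeff x f
  rw [h, hx.coeff_eq_zero (by simp), zero_mul, map_zero]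

/-- The ideal of polynomials whose components have values of lower degree. -/
noncomputable def K (W : Set V) : Ideal (MvPolynomial V ℚ) where
  carrier := {g | ∀ j, Z.ev W (homogeneousComponent j g) ∈ Z.E W j}
  add_mem' {f g} hf hg j := by
    rw [map_add, map_add]; exact Submodule.add_mem _ (hf j) (hg j)
  zero_mem' j := by rw [map_zero, map_zero]; exact Submodule.zero_mem _
  smul_mem' a := by
    induction a using MvPolynomial.induction_on with
    | C r =>
      intro g hg j
      rw [smul_eq_mul, homogeneousComponent_C_mul, ← smul_eq_C_mul, map_smul]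
      exact Submodule.smul_mem _ _ (hg j)
    | add p q hp hq =>
      intro g hg j
      rw [add_smul, map_add, map_add]
      exact Submodule.add_mem _ (hp hg j) (hq hg j)
    | mul_X p v hp =>
      intro g hg
      rw [smul_eq_mul, mul_assoc]
      refine hp (x := X v * g) ?_
      intro j
      cases j with
      | zero =>
        rw [comp_zero_mul (isHomogeneous_X ℚ v), map_zero]
        exact Submodule.zero_mem _
      | succ j =>
        rw [comp_mul (isHomogeneous_X ℚ v), map_mul]
        exact Z.X_mul_E v (hg j)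

lemma mem_K_of_homog {W : Set V} {g : MvPolynomial V ℚ} {d : ℕ} (hg : g.IsHomogeneous d)
    (h : Z.ev W g ∈ Z.E W d) : g ∈ Z.K W := by
  intro j
  rw [homogeneousComponent_of_mem ((mem_homogeneousSubmodule _ _).2 hg)]
  split_ifs with hj
  · rw [hj]; exact h
  · rw [map_zero]; exact Submodule.zero_mem _

theorem relJ_le_K (W : Set V) : relJ non θ W ≤ Z.K W := by
  refine relJ_le (Ideal.span_le.2 ?_) ?_
  · rintro f (⟨u, v, h, rfl⟩ | ⟨i, rfl⟩)
    · refine Z.mem_K_of_homog ((isHomogeneous_X ℚ u).mul (isHomogeneous_X ℚ v)) ?_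
      have : Z.ev W (X u * X v) = 0 := by
        ext t
        rw [map_mul, Pi.mul_apply, ev_X, ev_X, Pi.zero_apply]
        by_contra h'
        rw [mul_eq_zero, not_or] at h'
        exact Z.cl t.1 u v h ⟨(Z.supp _ _).1 h'.1, (Z.supp _ _).1 h'.2⟩
      rw [this]; exact Submodule.zero_mem _
    · refine Z.mem_K_of_homog (d := 1) ?_ ?_
      · exact IsHomogeneous.sum _ _ _ fun v _ => isHomogeneous_C_mul_X _ _
      · refine Submodule.subset_span ⟨0, one_pos, C (Z.c i), isHomogeneous_C _ _, ?_⟩
        ext t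
        have e1 : Z.ev W (C (Z.c i)) = algebraMap ℚ _ (Z.c i) := by
          rw [ev, aeval_C]
        rw [e1, map_sum, Finset.sum_apply]
        show _ = Z.c i
        rw [← Z.val t.1 i]
        refine Finset.sum_congr rfl fun v _ => ?_
        rw [map_mul, Pi.mul_apply, ev_X]
        congr 1
        rw [ev, aeval_C]; rfl
  · intro u hu
    refine Z.mem_K_of_homog (isHomogeneous_X ℚ u) ?_
    have : Z.ev W (X u) = 0 := by
      ext t
      rw [ev_X, Pi.zero_apply]
      by_contra h
      exact hu (t.2 ((Z.supp _ _).1 h))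
    rw [this]; exact Submodule.zero_mem _

/-- Spanning families of homogeneous elements have spanning values. -/
theorem ev_span {W : Set V} {κ : Type} [Fintype κ] {m : κ → MvPolynomial V ℚ} {d : κ → ℕ}
    (hm : ∀ k, (m k).IsHomogeneous (d k))
    (hs : ∀ f, ∃ a : κ → ℚ, f - ∑ k, a k • m k ∈ relJ non θ W) (f : MvPolynomial V ℚ) :
    Z.ev W f ∈ Submodule.span ℚ (Set.range fun k => Z.ev W (m k)) := by
  classical
  set S := Submodule.span ℚ (Set.range fun k => Z.ev W (m k)) with hS
  have key : ∀ i, ∀ f : MvPolynomial V ℚ, f.IsHomogeneous i → Z.ev W f ∈ S := by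
    intro i
    induction i using Nat.strong_induction_on with
    | _ i ih =>
      intro f hf
      have hE : Z.E W i ≤ S := by
        refine Submodule.span_le.2 ?_
        rintro _ ⟨i', hi', f', hf', rfl⟩
        exact ih i' hi' f' hf'
      obtain ⟨a, ha⟩ := hs f
      have h1 := hE (Z.relJ_le_K W ha i)
      rw [map_sub, map_sum, homogeneousComponent_of_mem ((mem_homogeneousSubmodule _ _).2 hf),
        if_pos rfl, map_sub, map_sum] at h1
      have h2 : ∑ k, Z.ev W (homogeneousComponent i (a k • m k)) ∈ S := by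
        refine Submodule.sum_mem _ fun k _ => ?_
        rw [map_smul, map_smul, homogeneousComponent_of_mem
          ((mem_homogeneousSubmodule _ _).2 (hm k))]
        refine Submodule.smul_mem _ _ ?_
        split_ifs
        · exact Submodule.subset_span ⟨k, rfl⟩
        · rw [map_zero]; exact Submodule.zero_mem _
      have h3 := Submodule.add_mem _ h1 h2
      rwa [sub_add_cancel] at h3
  rw [← sum_homogeneousComponent f, map_sum]
  exact Submodule.sum_mem _ fun i _ => key i _ (homogeneousComponent_isHomogeneous i f)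

noncomputable instance (W : Set V) : Fintype (Z.In W) :=
  haveI := Z.fin
  haveI : DecidablePred fun t => Z.F t ⊆ W := Classical.decPred _
  Subtype.fintype _

theorem ev_surj (W : Set V) (g : Z.In W → ℚ) : ∃ f, Z.ev W f = g := by
  classical
  -- delta functions
  have hd : ∀ t : Z.In W, ∃ f, Z.ev W f = Pi.single t 1 := by
    intro t
    let m : MvPolynomial V ℚ := ∏ v ∈ Finset.univ.filter (fun v => v ∈ Z.F t.1), X v
    have hm : ∀ t' : Z.In W, Z.ev W m t' = ∏ v ∈ Finset.univ.filter (fun v => v ∈ Z.F t.1),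
        Z.p t'.1 v := by
      intro t'
      rw [map_prod, Finset.prod_apply]
      exact Finset.prod_congr rfl fun v _ => Z.ev_X W v t'
    have h0 : Z.ev W m t ≠ 0 := by
      rw [hm, Finset.prod_ne_zero_iff]
      intro v hv
      rw [Finset.mem_filter] at hv
      exact (Z.supp _ _).2 hv.2
    have h1 : ∀ t', t' ≠ t → Z.ev W m t' = 0 := by
      intro t' ht
      rw [hm, Finset.prod_eq_zero_iff]
      by_contra h
      apply ht
      symm
      apply Subtype.ext
      apply Z.anti
      intro v hv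
      rw [← Z.supp]
      intro h0
      exact h ⟨v, by simp [hv], h0⟩
    refine ⟨C (Z.ev W m t)⁻¹ * m, ?_⟩
    ext t'
    rw [map_mul, Pi.mul_apply]
    have e1 : Z.ev W (C (Z.ev W m t)⁻¹) t' = (Z.ev W m t)⁻¹ := by
      rw [ev, aeval_C]; rfl
    rw [e1]
    by_cases ht : t' = t
    · rw [ht, Pi.single_eq_same, inv_mul_cancel₀ h0]
    · rw [h1 t' ht, mul_zero, Pi.single_eq_of_ne ht]
  choose f hf using hd
  refine ⟨∑ t, C (g t) * f t, ?_⟩
  rw [map_sum]
  ext t'
  rw [Finset.sum_apply, Finset.sum_eq_single t']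
  · rw [map_mul, Pi.mul_apply, hf, Pi.single_eq_same, mul_one, ev, aeval_C]; rfl
  · intro t _ ht
    rw [map_mul, Pi.mul_apply, hf, Pi.single_eq_of_ne ht.symm, mul_zero]
  · intro h; exact absurd (Finset.mem_univ _) h

theorem card_le {W : Set V} {κ : Type} [Fintype κ] {m : κ → MvPolynomial V ℚ} {d : κ → ℕ}
    (hm : ∀ k, (m k).IsHomogeneous (d k))
    (hs : ∀ f, ∃ a : κ → ℚ, f - ∑ k, a k • m k ∈ relJ non θ W) :
    Fintype.card (Z.In W) ≤ Fintype.card κ := by
  have h1 : Submodule.span ℚ (Set.range fun k => Z.ev W (m k)) = ⊤ := by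
    rw [eq_top_iff]
    intro g _
    obtain ⟨f, rfl⟩ := Z.ev_surj W g
    exact Z.ev_span hm hs f
  have h2 := finrank_range_le_card (R := ℚ) (fun k => Z.ev W (m k))
  rw [Set.finrank, h1, finrank_top, Module.finrank_fintype_fun_eq_card] at h2
  exact h2

/-- Linear independence modulo the relations. -/
theorem indep {W : Set V} {κ : Type} [Fintype κ] {m : κ → MvPolynomial V ℚ} {d : κ → ℕ}
    (hm : ∀ k, (m k).IsHomogeneous (d k))
    (hs : ∀ f, ∃ a : κ → ℚ, f - ∑ k, a k • m k ∈ relJ non θ W)
    (hc : Fintype.card κ ≤ Fintype.card (Z.In W)) (a : κ → ℚ)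
    (ha : ∑ k, a k • m k ∈ relJ non θ W) : a = 0 := by
  classical
  by_contra hne
  obtain ⟨k0, hk0⟩ := Function.ne_iff.1 hne
  rw [Pi.zero_apply] at hk0
  let κ' := {k : κ // k ≠ k0}
  have hs' : ∀ f, ∃ b : κ' → ℚ, f - ∑ k : κ', b k • m k.1 ∈ relJ non θ W := by
    intro f
    obtain ⟨b, hb⟩ := hs f
    refine ⟨fun k => b k.1 - b k0 * (a k0)⁻¹ * a k.1, ?_⟩
    have h1 := Ideal.add_mem _ hb (Ideal.mul_mem_left _ (C (b k0 * (a k0)⁻¹)) ha)
    convert h1 using 1
    have e : ∀ g : κ → MvPolynomial V ℚ, ∑ k, g k = g k0 + ∑ k : κ', g k.1 :=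
      fun g => Fintype.sum_eq_add_sum_subtype_ne g k0
    rw [e (fun k => b k • m k), e (fun k => a k • m k), mul_add, Finset.mul_sum]
    simp only [sub_smul, Finset.sum_sub_distrib, smul_eq_C_mul, map_mul]
    have e2 : C (b k0) * C (a k0)⁻¹ * (C (a k0) * m k0) = C (b k0) * m k0 := by
      rw [← mul_assoc, mul_assoc (C (b k0)), ← map_mul, inv_mul_cancel₀ hk0, map_one, mul_one]
    rw [e2]
    simp only [mul_assoc]
    ring
  have h2 := Z.card_le (fun k : κ' => hm k.1) hs'
  have h3 : Fintype.card κ' = Fintype.card κ - 1 := by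
    rw [Fintype.card_subtype_compl, Fintype.card_subtype_eq]
  have h4 : 0 < Fintype.card κ := Fintype.card_pos_iff.2 ⟨k0⟩
  omega

/-- The colon ideal of a variable. -/
theorem colon [Fintype ι] {fac : Set V → Prop} (hfac : ∀ F, fac F → Simp θ F) {vx : ℕ → V}
    {W N : Set V} {σ : ℕ} (T1 T2 : Tree) (hN : ∀ u ∈ W, u ∉ N → non (vx σ) u)
    (h1 : WF non fac vx T1 (W \ {vx σ})) (h2 : WF non fac vx T2 N)
    (hc : T1.size + T2.size ≤ Fintype.card (Z.In W)) (f : MvPolynomial V ℚ) :
    f * X (vx σ) ∈ relJ non θ W ↔ f ∈ relJ non θ N := by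
  constructor
  · intro hf
    obtain ⟨a, ha⟩ := spanning hfac T2 N h2 f
    have h3 := X_mul_mem hN ha
    have h4 : ∑ k, a k • mon vx (σ :: T2.mono k) ∈ relJ non θ W := by
      have h5 := Ideal.sub_mem _ hf h3
      convert h5 using 1
      simp only [mon_cons]
      rw [mul_sub, Finset.mul_sum]
      have e2 : ∀ k, X (vx σ) * (a k • mon vx (T2.mono k)) =
        a k • (X (vx σ) * mon vx (T2.mono k)) := fun k => mul_smul_comm _ _ _
      simp only [e2]
      ring
    let T : Tree := .node σ T1 T2
    have hT : WF non fac vx T W := ⟨N, hN, h1, h2⟩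
    have h6 := Z.indep (W := W) (κ := T.Idx) (m := fun k => mon vx (T.mono k))
      (fun k => mon_homog vx _) (spanning hfac T W hT) (by rw [Tree.card_idx]; exact hc)
      (Sum.elim 0 a) (by
        have e : ∑ k : T.Idx, (Sum.elim 0 a : T.Idx → ℚ) k • mon vx (T.mono k) =
          ∑ k : T1.Idx, (0 : ℚ) • mon vx (T1.mono k) + ∑ k, a k • mon vx (σ :: T2.mono k) :=
          Fintype.sum_sum_type _
        rw [e]
        simp only [zero_smul, Finset.sum_const_zero, zero_add]
        exact h4)
    have h7 : a = 0 := by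
      ext k
      exact congrFun h6 (Sum.inr k)
    rw [h7] at ha
    simpa using ha
  · intro hf
    rw [mul_comm]
    exact X_mul_mem hN hf

end Points

end Pool.Agent.X221.Koszul
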