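import Mathlib
import Pool.Agent.X221.Koszul.Alg

/-!
# The quotient ring: grading, Koszul filtration, Hilbert function
-/

namespace Pool.Agent.X221.Koszul

open MvPolynomial

set_option linter.unusedSectionVars false

variable {V : Type}

/-- The degree pieces of a quotient of a polynomial ring. -/
noncomputable def piece (I : Ideal (MvPolynomial V ℚ)) (n : ℕ) :
    Submodule ℚ (MvPolynomial V ℚ ⧸ I) :=
  (homogeneousSubmodule V ℚ n).map (Ideal.Quotient.mkₐ ℚ I).toLinearMap

lemma mem_piece {I : Ideal (MvPolynomial V ℚ)} {n : ℕ} {x : MvPolynomial V ℚ ⧸ I} :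
    x ∈ piece I n ↔ ∃ f : MvPolynomial V ℚ, f.IsHomogeneous n ∧ Ideal.Quotient.mk I f = x :=
  Iff.rfl

/-- The component operators. -/
noncomputable def compD {I : Ideal (MvPolynomial V ℚ)}
    (hI : ∀ f ∈ I, ∀ n, homogeneousComponent n f ∈ I) (n : ℕ) :
    (MvPolynomial V ℚ ⧸ I) →ₗ[ℚ] (MvPolynomial V ℚ ⧸ I) :=
  (Submodule.Quotient.restrictScalarsEquiv ℚ I).toLinearMap ∘ₗ
    (Submodule.mapQ (I.restrictScalars ℚ) (I.restrictScalars ℚ) (homogeneousComponent n)
      (fun f hf => hI f hf n)) ∘ₗ (Submodule.Quotient.restrictScalarsEquiv ℚ I).symm.toLinearMap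

lemma compD_mk {I : Ideal (MvPolynomial V ℚ)}
    (hI : ∀ f ∈ I, ∀ n, homogeneousComponent n f ∈ I) (n : ℕ) (f : MvPolynomial V ℚ) :
    compD hI n (Ideal.Quotient.mk I f) = Ideal.Quotient.mk I (homogeneousComponent n f) := rfl

/-- The component operators of the quotient ring. -/
noncomputable def comps [Fintype V] {I : Ideal (MvPolynomial V ℚ)}
    (hI : ∀ f ∈ I, ∀ n, homogeneousComponent n f ∈ I) : Comps (piece I 1) where
  c := compD hI
  mul := by
    intro x hx f n
    obtain ⟨x, hx', rfl⟩ := mem_piece.1 hx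
    obtain ⟨f, rfl⟩ := Ideal.Quotient.mk_surjective f
    rw [← map_mul, compD_mk, compD_mk, comp_mul hx', map_mul]
  zero_mul := by
    intro x hx f
    obtain ⟨x, hx', rfl⟩ := mem_piece.1 hx
    obtain ⟨f, rfl⟩ := Ideal.Quotient.mk_surjective f
    rw [← map_mul, compD_mk, comp_zero_mul hx', map_zero]
  one_mem := by
    intro f
    obtain ⟨f, rfl⟩ := Ideal.Quotient.mk_surjective f
    exact mem_piece.2 ⟨_, homogeneousComponent_isHomogeneous 1 f, (compD_mk hI 1 f).symm⟩
  one_id := by
    intro x hx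
    obtain ⟨x, hx', rfl⟩ := mem_piece.1 hx
    rw [compD_mk, homogeneousComponent_of_mem ((mem_homogeneousSubmodule _ _).2 hx'), if_pos rfl]

/-- The irrelevant ideal. -/
noncomputable def irr (I : Ideal (MvPolynomial V ℚ)) : Ideal (MvPolynomial V ℚ ⧸ I) :=
  Ideal.span (Set.range fun v : V => Ideal.Quotient.mk I (X v))

/-- A linear free resolution of the residue field. -/
def IsKoszul (I : Ideal (MvPolynomial V ℚ)) : Prop :=
  ∃ (b : ℕ → ℕ) (M : (i : ℕ) → Matrix (Fin (b i)) (Fin (b (i + 1))) (MvPolynomial V ℚ ⧸ I)),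
    b 0 = 1 ∧ (∀ i r c, M i r c ∈ piece I 1) ∧
    (∀ v : Fin (b 0) → (MvPolynomial V ℚ ⧸ I),
      v ∈ LinearMap.range (M 0).mulVecLin ↔ ∀ j, v j ∈ irr I) ∧
    ∀ i, LinearMap.range (M (i + 1)).mulVecLin = LinearMap.ker (M i).mulVecLin

variable [Fintype V] {ι : Type} {non : V → V → Prop} {θ : ι → V → ℚ}

theorem relI_homog : ∀ f ∈ relI non θ, ∀ n, homogeneousComponent n f ∈ relI non θ := by
  intro f hf n
  let _ : GradedAlgebra (homogeneousSubmodule V ℚ) := MvPolynomial.gradedAlgebra
  refine homogeneousComponent_mem_of_mem ?_ hf n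
  refine Ideal.homogeneous_span _ _ ?_
  rintro _ (⟨u, v, _, rfl⟩ | ⟨i, rfl⟩)
  · exact ⟨1 + 1, (mem_homogeneousSubmodule _ _).2
      ((isHomogeneous_X ℚ u).mul (isHomogeneous_X ℚ v))⟩
  · exact ⟨1, (mem_homogeneousSubmodule _ _).2
      (IsHomogeneous.sum _ _ _ fun v _ => isHomogeneous_C_mul_X _ _)⟩

/-- The ideal of the quotient given by a vertex set. -/
noncomputable def idl (non : V → V → Prop) (θ : ι → V → ℚ) (W : Set V) :
    Ideal (MvPolynomial V ℚ ⧸ relI non θ) :=
  (relJ non θ W).map (Ideal.Quotient.mk (relI non θ))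

lemma mem_idl {W : Set V} {f : MvPolynomial V ℚ} :
    Ideal.Quotient.mk (relI non θ) f ∈ idl non θ W ↔ f ∈ relJ non θ W :=
  Ideal.mem_quotient_iff_mem (relI_le_relJ W)

lemma relJ_univ : relJ non θ Set.univ = relI non θ :=
  le_antisymm (relJ_le le_rfl fun u hu => absurd (Set.mem_univ u) hu) (relI_le_relJ _)

lemma idl_univ : idl non θ Set.univ = ⊥ := by
  rw [idl, relJ_univ, Ideal.map_quotient_self]

lemma relJ_diff {W : Set V} {s : V} (_hs : s ∈ W) :
    relJ non θ (W \ {s}) = relJ non θ W ⊔ Ideal.span {X s} := by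
  apply le_antisymm
  · refine relJ_le (le_sup_left.trans' (relI_le_relJ _)) fun u hu => ?_
    by_cases huW : u ∈ W
    · have : u = s := by
        by_contra h
        exact hu ⟨huW, h⟩
      rw [this]
      exact Ideal.mem_sup_right (Ideal.mem_span_singleton_self _)
    · exact Ideal.mem_sup_left (X_mem huW)
  · refine sup_le (relJ_le (relI_le_relJ _) fun u hu => X_mem fun h => hu h.1) ?_
    rw [Ideal.span_singleton_le_iff_mem]
    exact X_mem fun h => h.2 rfl

lemma idl_diff {W : Set V} {s : V} (hs : s ∈ W) :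
    idl non θ (W \ {s}) = idl non θ W ⊔ Ideal.span {Ideal.Quotient.mk _ (X s)} := by
  rw [idl, relJ_diff hs, Ideal.map_sup, Ideal.map_span, Set.image_singleton, idl]

lemma idl_simp [Fintype ι] {F : Set V} (hF : Simp θ F) : idl non θ F = irr (relI non θ) := by
  apply le_antisymm
  · rw [idl, Ideal.map_le_iff_le_comap]
    refine relJ_le (fun f hf => ?_) fun u _ => ?_
    · rw [Ideal.mem_comap, Ideal.Quotient.eq_zero_iff_mem.2 hf]
      exact Ideal.zero_mem _
    · exact Ideal.subset_span ⟨u, rfl⟩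
  · refine Ideal.span_le.2 ?_
    rintro _ ⟨v, rfl⟩
    exact mem_idl.2 (X_mem_of_simp hF v)

/-- Combinatorial data giving a Koszul filtration. -/
structure Filt (Z : Points non θ) (fac : Set V → Prop) (vx : ℕ → V) where
  /-- the index type -/
  T : Type
  /-- the vertex sets -/
  W : T → Set V
  /-- the decompositions -/
  tr : T → Tree
  wf : ∀ t, WF non fac vx (tr t) (W t)
  /-- the rank -/
  rk : T → ℕ
  step : ∀ t, W t = Set.univ ∨ ∃ (s u : T) (σ : ℕ), vx σ ∈ W s ∧ W t = W s \ {vx σ} ∧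
    rk s < rk t ∧ (∀ v ∈ W s, v ∉ W u → non (vx σ) v) ∧
    (tr t).size + (tr u).size ≤ Fintype.card (Z.In (W s))

/-- The Koszul filtration. -/
noncomputable def Filt.kfilt [Fintype ι] {Z : Points non θ} {fac : Set V → Prop}
    (hfac : ∀ F, fac F → Simp θ F) {vx : ℕ → V} (D : Filt Z fac vx) :
    KFilt (piece (relI non θ) 1) (fun t => idl non θ (D.W t)) where
  rank := D.rk
  step := by
    intro t
    rcases D.step t with h | ⟨s, u, σ, hσ, hW, hr, hN, hc⟩
    · left; show idl non θ (D.W t) = ⊥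
      rw [h, idl_univ]
    · right
      refine ⟨s, u, Ideal.Quotient.mk _ (X (vx σ)), mem_piece.2 ⟨_, isHomogeneous_X ℚ _, rfl⟩,
        hr, ?_, ?_⟩
      · rw [hW, idl_diff hσ]
      · intro r
        obtain ⟨f, rfl⟩ := Ideal.Quotient.mk_surjective r
        rw [← map_mul, mem_idl, mem_idl]
        exact Z.colon hfac (D.tr t) (D.tr u) hN (hW ▸ D.wf t) (D.wf u) hc f

theorem isKoszul [Fintype ι] {Z : Points non θ} {fac : Set V → Prop}
    (hfac : ∀ F, fac F → Simp θ F) {vx : ℕ → V} (D : Filt Z fac vx) (t : D.T)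
    (ht : fac (D.W t)) : IsKoszul (relI non θ) := by
  obtain ⟨b, M, hb, h1, h2, h3⟩ := exists_resolution (comps relI_homog) (D.kfilt hfac) t
  rw [idl_simp (hfac _ ht)] at h2
  exact ⟨b, M, hb, h1, h2, h3⟩

/-- The Hilbert function. -/
theorem finrank_piece [Fintype ι] (Z : Points non θ) {fac : Set V → Prop}
    (hfac : ∀ F, fac F → Simp θ F) {vx : ℕ → V} (T : Tree) (hT : WF non fac vx T Set.univ)
    (hc : T.size ≤ Fintype.card (Z.In Set.univ)) (n : ℕ) :
    Module.finrank ℚ (piece (relI non θ) n) = T.hvec n := by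
  classical
  let b : T.Idx → (MvPolynomial V ℚ ⧸ relI non θ) := fun k =>
    Ideal.Quotient.mk _ (mon vx (T.mono k))
  have hsum : ∀ a : T.Idx → ℚ, ∑ k, a k • b k =
      Ideal.Quotient.mk (relI non θ) (∑ k, a k • mon vx (T.mono k)) := by
    intro a
    rw [map_sum]
    rfl
  have hli : LinearIndependent ℚ b := by
    rw [Fintype.linearIndependent_iff]
    intro a ha
    rw [hsum, Ideal.Quotient.eq_zero_iff_mem] at ha
    have := Z.indep (W := Set.univ) (κ := T.Idx) (m := fun k => mon vx (T.mono k))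
      (fun k => mon_homog vx _) (spanning hfac T _ hT) (by rw [Tree.card_idx]; exact hc) a
      (relI_le_relJ _ ha)
    intro i
    rw [this]; rfl
  let κ := {k : T.Idx // (T.mono k).length = n}
  have hli' : LinearIndependent ℚ (fun k : κ => b k.1) :=
    hli.comp _ Subtype.val_injective
  have hspan : Submodule.span ℚ (Set.range fun k : κ => b k.1) = piece (relI non θ) n := by
    apply le_antisymm
    · rw [Submodule.span_le]
      rintro _ ⟨k, rfl⟩
      refine mem_piece.2 ⟨mon vx (T.mono k.1), ?_, rfl⟩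
      have := mon_homog vx (T.mono k.1)
      rwa [k.2] at this
    · intro x hx
      obtain ⟨f, hf, rfl⟩ := mem_piece.1 hx
      obtain ⟨a, ha⟩ := spanning hfac T _ hT f
      rw [relJ_univ] at ha
      have h1 := relI_homog _ ha n
      rw [map_sub, map_sum, homogeneousComponent_of_mem ((mem_homogeneousSubmodule _ _).2 hf),
        if_pos rfl, ← Ideal.Quotient.eq_zero_iff_mem, map_sub, sub_eq_zero, map_sum] at h1
      rw [h1]
      refine Submodule.sum_mem _ fun k _ => ?_
      rw [map_smul, homogeneousComponent_of_mem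
        ((mem_homogeneousSubmodule _ _).2 (mon_homog vx (T.mono k)))]
      have e : Ideal.Quotient.mk (relI non θ)
          (a k • if n = (T.mono k).length then mon vx (T.mono k) else 0) =
          a k • Ideal.Quotient.mk (relI non θ)
          (if n = (T.mono k).length then mon vx (T.mono k) else 0) := rfl
      rw [e]
      refine Submodule.smul_mem _ _ ?_
      split_ifs with h
      · exact Submodule.subset_span ⟨⟨k, h.symm⟩, rfl⟩
      · rw [map_zero]; exact Submodule.zero_mem _
  rw [← hspan, finrank_span_eq_card hli', ← T.sum_hvec n, Fintype.card_subtype,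
    Finset.card_filter]

end Pool.Agent.X221.Koszul
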