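import Mathlib
import Pool.Agent.X221.Koszul.Quot

/-!
# The certificate for the building set

The eighteen members of the building set are encoded as bit masks on seven points, and sets of
members are encoded as bit masks of length eighteen.
-/

namespace Pool.Agent.X221.Koszul.Cert

open MvPolynomial

/-- The members of the building set as masks. -/
def masks : List ℕ :=
  [1, 2, 4, 8, 16, 32, 64, 6, 24, 33, 57, 63, 65, 97, 113, 121, 123, 127]

/-- The mask of a vertex. -/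
def mk (k : ℕ) : ℕ := masks.getD k 0

/-- The closed neighbourhoods in the graph of nested pairs. -/
def nbms : List ℕ :=
[262047, 229371, 196605, 245743, 253943, 258046, 258558, 162815, 237055, 257727, 233279,
  135103, 258527, 258799, 258807, 259965, 259963, 262143]

/-- The closed neighbourhood of a vertex. -/
def nbm (k : ℕ) : ℕ := nbms.getD k 0

/-- The facets, with a dual functional for each vertex. -/
def facL : List (ℕ × List (ℕ × ℕ × ℕ)) :=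
[(131562, [(1, 1, 2), (3, 3, 4), (5, 5, 0), (6, 6, 0), (7, 2, 0), (8, 4, 0), (17, 0, 7)]),
  (131564, [(2, 2, 1), (3, 3, 4), (5, 5, 0), (6, 6, 0), (7, 1, 0), (8, 4, 0), (17, 0, 7)]),
  (131570, [(1, 1, 2), (4, 4, 3), (5, 5, 0), (6, 6, 0), (7, 2, 0), (8, 3, 0), (17, 0, 7)]),
  (131572, [(2, 2, 1), (4, 4, 3), (5, 5, 0), (6, 6, 0), (7, 1, 0), (8, 3, 0), (17, 0, 7)]),
  (133515, [(0, 0, 5), (1, 1, 2), (3, 3, 4), (7, 2, 5), (8, 4, 5), (11, 5, 6), (17, 6, 7)]),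
  (133517, [(0, 0, 5), (2, 2, 1), (3, 3, 4), (7, 1, 5), (8, 4, 5), (11, 5, 6), (17, 6, 7)]),
  (133523, [(0, 0, 5), (1, 1, 2), (4, 4, 3), (7, 2, 5), (8, 3, 5), (11, 5, 6), (17, 6, 7)]),
  (133525, [(0, 0, 5), (2, 2, 1), (4, 4, 3), (7, 1, 5), (8, 3, 5), (11, 5, 6), (17, 6, 7)]),
  (133546, [(1, 1, 2), (3, 3, 4), (5, 5, 0), (7, 2, 0), (8, 4, 0), (11, 0, 6), (17, 6, 7)]),
  (133548, [(2, 2, 1), (3, 3, 4), (5, 5, 0), (7, 1, 0), (8, 4, 0), (11, 0, 6), (17, 6, 7)]),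
  (133554, [(1, 1, 2), (4, 4, 3), (5, 5, 0), (7, 2, 0), (8, 3, 0), (11, 0, 6), (17, 6, 7)]),
  (133556, [(2, 2, 1), (4, 4, 3), (5, 5, 0), (7, 1, 0), (8, 3, 0), (11, 0, 6), (17, 6, 7)]),
  (133771, [(0, 0, 5), (1, 1, 2), (3, 3, 4), (7, 2, 4), (9, 5, 4), (11, 4, 6), (17, 6, 7)]),
  (133773, [(0, 0, 5), (2, 2, 1), (3, 3, 4), (7, 1, 4), (9, 5, 4), (11, 4, 6), (17, 6, 7)]),
  (133779, [(0, 0, 5), (1, 1, 2), (4, 4, 3), (7, 2, 3), (9, 5, 3), (11, 3, 6), (17, 6, 7)]),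
  (133781, [(0, 0, 5), (2, 2, 1), (4, 4, 3), (7, 1, 3), (9, 5, 3), (11, 3, 6), (17, 6, 7)]),
  (133802, [(1, 1, 2), (3, 3, 4), (5, 5, 0), (7, 2, 4), (9, 0, 4), (11, 4, 6), (17, 6, 7)]),
  (133804, [(2, 2, 1), (3, 3, 4), (5, 5, 0), (7, 1, 4), (9, 0, 4), (11, 4, 6), (17, 6, 7)]),
  (133810, [(1, 1, 2), (4, 4, 3), (5, 5, 0), (7, 2, 3), (9, 0, 3), (11, 3, 6), (17, 6, 7)]),
  (133812, [(2, 2, 1), (4, 4, 3), (5, 5, 0), (7, 1, 3), (9, 0, 3), (11, 3, 6), (17, 6, 7)]),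
  (134411, [(0, 0, 5), (1, 1, 2), (3, 3, 4), (8, 4, 5), (10, 5, 2), (11, 2, 6), (17, 6, 7)]),
  (134413, [(0, 0, 5), (2, 2, 1), (3, 3, 4), (8, 4, 5), (10, 5, 1), (11, 1, 6), (17, 6, 7)]),
  (134419, [(0, 0, 5), (1, 1, 2), (4, 4, 3), (8, 3, 5), (10, 5, 2), (11, 2, 6), (17, 6, 7)]),
  (134421, [(0, 0, 5), (2, 2, 1), (4, 4, 3), (8, 3, 5), (10, 5, 1), (11, 1, 6), (17, 6, 7)]),
  (134442, [(1, 1, 2), (3, 3, 4), (5, 5, 0), (8, 4, 0), (10, 0, 2), (11, 2, 6), (17, 6, 7)]),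
  (134444, [(2, 2, 1), (3, 3, 4), (5, 5, 0), (8, 4, 0), (10, 0, 1), (11, 1, 6), (17, 6, 7)]),
  (134450, [(1, 1, 2), (4, 4, 3), (5, 5, 0), (8, 3, 0), (10, 0, 2), (11, 2, 6), (17, 6, 7)]),
  (134452, [(2, 2, 1), (4, 4, 3), (5, 5, 0), (8, 3, 0), (10, 0, 1), (11, 1, 6), (17, 6, 7)]),
  (134667, [(0, 0, 5), (1, 1, 2), (3, 3, 4), (9, 5, 4), (10, 4, 2), (11, 2, 6), (17, 6, 7)]),
  (134669, [(0, 0, 5), (2, 2, 1), (3, 3, 4), (9, 5, 4), (10, 4, 1), (11, 1, 6), (17, 6, 7)]),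
  (134675, [(0, 0, 5), (1, 1, 2), (4, 4, 3), (9, 5, 3), (10, 3, 2), (11, 2, 6), (17, 6, 7)]),
  (134677, [(0, 0, 5), (2, 2, 1), (4, 4, 3), (9, 5, 3), (10, 3, 1), (11, 1, 6), (17, 6, 7)]),
  (134698, [(1, 1, 2), (3, 3, 4), (5, 5, 0), (9, 0, 4), (10, 4, 2), (11, 2, 6), (17, 6, 7)]),
  (134700, [(2, 2, 1), (3, 3, 4), (5, 5, 0), (9, 0, 4), (10, 4, 1), (11, 1, 6), (17, 6, 7)]),
  (134706, [(1, 1, 2), (4, 4, 3), (5, 5, 0), (9, 0, 3), (10, 3, 2), (11, 2, 6), (17, 6, 7)]),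
  (134708, [(2, 2, 1), (4, 4, 3), (5, 5, 0), (9, 0, 3), (10, 3, 1), (11, 1, 6), (17, 6, 7)]),
  (135563, [(0, 0, 6), (1, 1, 2), (3, 3, 4), (7, 2, 5), (8, 4, 5), (12, 6, 5), (17, 5, 7)]),
  (135565, [(0, 0, 6), (2, 2, 1), (3, 3, 4), (7, 1, 5), (8, 4, 5), (12, 6, 5), (17, 5, 7)]),
  (135571, [(0, 0, 6), (1, 1, 2), (4, 4, 3), (7, 2, 5), (8, 3, 5), (12, 6, 5), (17, 5, 7)]),
  (135573, [(0, 0, 6), (2, 2, 1), (4, 4, 3), (7, 1, 5), (8, 3, 5), (12, 6, 5), (17, 5, 7)]),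
  (135626, [(1, 1, 2), (3, 3, 4), (6, 6, 0), (7, 2, 5), (8, 4, 5), (12, 0, 5), (17, 5, 7)]),
  (135628, [(2, 2, 1), (3, 3, 4), (6, 6, 0), (7, 1, 5), (8, 4, 5), (12, 0, 5), (17, 5, 7)]),
  (135634, [(1, 1, 2), (4, 4, 3), (6, 6, 0), (7, 2, 5), (8, 3, 5), (12, 0, 5), (17, 5, 7)]),
  (135636, [(2, 2, 1), (4, 4, 3), (6, 6, 0), (7, 1, 5), (8, 3, 5), (12, 0, 5), (17, 5, 7)]),
  (139498, [(1, 1, 2), (3, 3, 4), (5, 5, 0), (6, 6, 0), (7, 2, 4), (13, 0, 4), (17, 4, 7)]),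
  (139500, [(2, 2, 1), (3, 3, 4), (5, 5, 0), (6, 6, 0), (7, 1, 4), (13, 0, 4), (17, 4, 7)]),
  (139915, [(0, 0, 5), (1, 1, 2), (3, 3, 4), (7, 2, 4), (9, 5, 6), (13, 6, 4), (17, 4, 7)]),
  (139917, [(0, 0, 5), (2, 2, 1), (3, 3, 4), (7, 1, 4), (9, 5, 6), (13, 6, 4), (17, 4, 7)]),
  (139946, [(1, 1, 2), (3, 3, 4), (5, 5, 0), (7, 2, 4), (9, 0, 6), (13, 6, 4), (17, 4, 7)]),
  (139948, [(2, 2, 1), (3, 3, 4), (5, 5, 0), (7, 1, 4), (9, 0, 6), (13, 6, 4), (17, 4, 7)]),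
  (143499, [(0, 0, 6), (1, 1, 2), (3, 3, 4), (7, 2, 4), (12, 6, 5), (13, 5, 4), (17, 4, 7)]),
  (143501, [(0, 0, 6), (2, 2, 1), (3, 3, 4), (7, 1, 4), (12, 6, 5), (13, 5, 4), (17, 4, 7)]),
  (143562, [(1, 1, 2), (3, 3, 4), (6, 6, 0), (7, 2, 4), (12, 0, 5), (13, 5, 4), (17, 4, 7)]),
  (143564, [(2, 2, 1), (3, 3, 4), (6, 6, 0), (7, 1, 4), (12, 0, 5), (13, 5, 4), (17, 4, 7)]),
  (147698, [(1, 1, 2), (4, 4, 0), (5, 5, 0), (6, 6, 0), (7, 2, 3), (14, 0, 3), (17, 3, 7)]),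
  (147700, [(2, 2, 1), (4, 4, 0), (5, 5, 0), (6, 6, 0), (7, 1, 3), (14, 0, 3), (17, 3, 7)]),
  (148115, [(0, 0, 5), (1, 1, 2), (4, 4, 6), (7, 2, 3), (9, 5, 6), (14, 6, 3), (17, 3, 7)]),
  (148117, [(0, 0, 5), (2, 2, 1), (4, 4, 6), (7, 1, 3), (9, 5, 6), (14, 6, 3), (17, 3, 7)]),
  (148146, [(1, 1, 2), (4, 4, 6), (5, 5, 0), (7, 2, 3), (9, 0, 6), (14, 6, 3), (17, 3, 7)]),
  (148148, [(2, 2, 1), (4, 4, 6), (5, 5, 0), (7, 1, 3), (9, 0, 6), (14, 6, 3), (17, 3, 7)]),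
  (151699, [(0, 0, 6), (1, 1, 2), (4, 4, 5), (7, 2, 3), (12, 6, 5), (14, 5, 3), (17, 3, 7)]),
  (151701, [(0, 0, 6), (2, 2, 1), (4, 4, 5), (7, 1, 3), (12, 6, 5), (14, 5, 3), (17, 3, 7)]),
  (151762, [(1, 1, 2), (4, 4, 5), (6, 6, 0), (7, 2, 3), (12, 0, 5), (14, 5, 3), (17, 3, 7)]),
  (151764, [(2, 2, 1), (4, 4, 5), (6, 6, 0), (7, 1, 3), (12, 0, 5), (14, 5, 3), (17, 3, 7)]),
  (155874, [(1, 1, 2), (5, 5, 0), (6, 6, 0), (7, 2, 3), (13, 0, 4), (14, 4, 3), (17, 3, 7)]),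
  (155876, [(2, 2, 1), (5, 5, 0), (6, 6, 0), (7, 1, 3), (13, 0, 4), (14, 4, 3), (17, 3, 7)]),
  (156291, [(0, 0, 5), (1, 1, 2), (7, 2, 3), (9, 5, 6), (13, 6, 4), (14, 4, 3), (17, 3, 7)]),
  (156293, [(0, 0, 5), (2, 2, 1), (7, 1, 3), (9, 5, 6), (13, 6, 4), (14, 4, 3), (17, 3, 7)]),
  (156322, [(1, 1, 2), (5, 5, 0), (7, 2, 3), (9, 0, 6), (13, 6, 4), (14, 4, 3), (17, 3, 7)]),
  (156324, [(2, 2, 1), (5, 5, 0), (7, 1, 3), (9, 0, 6), (13, 6, 4), (14, 4, 3), (17, 3, 7)]),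
  (159875, [(0, 0, 6), (1, 1, 2), (7, 2, 3), (12, 6, 5), (13, 5, 4), (14, 4, 3), (17, 3, 7)]),
  (159877, [(0, 0, 6), (2, 2, 1), (7, 1, 3), (12, 6, 5), (13, 5, 4), (14, 4, 3), (17, 3, 7)]),
  (159938, [(1, 1, 2), (6, 6, 0), (7, 2, 3), (12, 0, 5), (13, 5, 4), (14, 4, 3), (17, 3, 7)]),
  (159940, [(2, 2, 1), (6, 6, 0), (7, 1, 3), (12, 0, 5), (13, 5, 4), (14, 4, 3), (17, 3, 7)]),
  (164204, [(2, 2, 1), (3, 3, 4), (5, 5, 0), (6, 6, 0), (8, 4, 0), (15, 0, 1), (17, 1, 7)]),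
  (164212, [(2, 2, 1), (4, 4, 3), (5, 5, 0), (6, 6, 0), (8, 3, 0), (15, 0, 1), (17, 1, 7)]),
  (165133, [(0, 0, 5), (2, 2, 1), (3, 3, 4), (8, 4, 5), (10, 5, 6), (15, 6, 1), (17, 1, 7)]),
  (165141, [(0, 0, 5), (2, 2, 1), (4, 4, 3), (8, 3, 5), (10, 5, 6), (15, 6, 1), (17, 1, 7)]),
  (165164, [(2, 2, 1), (3, 3, 4), (5, 5, 0), (8, 4, 0), (10, 0, 6), (15, 6, 1), (17, 1, 7)]),
  (165172, [(2, 2, 1), (4, 4, 3), (5, 5, 0), (8, 3, 0), (10, 0, 6), (15, 6, 1), (17, 1, 7)]),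
  (165389, [(0, 0, 5), (2, 2, 1), (3, 3, 4), (9, 5, 4), (10, 4, 6), (15, 6, 1), (17, 1, 7)]),
  (165397, [(0, 0, 5), (2, 2, 1), (4, 4, 3), (9, 5, 3), (10, 3, 6), (15, 6, 1), (17, 1, 7)]),
  (165420, [(2, 2, 1), (3, 3, 4), (5, 5, 0), (9, 0, 4), (10, 4, 6), (15, 6, 1), (17, 1, 7)]),
  (165428, [(2, 2, 1), (4, 4, 3), (5, 5, 0), (9, 0, 3), (10, 3, 6), (15, 6, 1), (17, 1, 7)]),
  (168205, [(0, 0, 6), (2, 2, 1), (3, 3, 4), (8, 4, 5), (12, 6, 5), (15, 5, 1), (17, 1, 7)]),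
  (168213, [(0, 0, 6), (2, 2, 1), (4, 4, 3), (8, 3, 5), (12, 6, 5), (15, 5, 1), (17, 1, 7)]),
  (168268, [(2, 2, 1), (3, 3, 4), (6, 6, 0), (8, 4, 5), (12, 0, 5), (15, 5, 1), (17, 1, 7)]),
  (168276, [(2, 2, 1), (4, 4, 3), (6, 6, 0), (8, 3, 5), (12, 0, 5), (15, 5, 1), (17, 1, 7)]),
  (172140, [(2, 2, 1), (3, 3, 4), (5, 5, 0), (6, 6, 0), (13, 0, 4), (15, 4, 1), (17, 1, 7)]),
  (172557, [(0, 0, 5), (2, 2, 1), (3, 3, 4), (9, 5, 6), (13, 6, 4), (15, 4, 1), (17, 1, 7)]),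
  (172588, [(2, 2, 1), (3, 3, 4), (5, 5, 0), (9, 0, 6), (13, 6, 4), (15, 4, 1), (17, 1, 7)]),
  (176141, [(0, 0, 6), (2, 2, 1), (3, 3, 4), (12, 6, 5), (13, 5, 4), (15, 4, 1), (17, 1, 7)]),
  (176204, [(2, 2, 1), (3, 3, 4), (6, 6, 0), (12, 0, 5), (13, 5, 4), (15, 4, 1), (17, 1, 7)]),
  (180340, [(2, 2, 1), (4, 4, 0), (5, 5, 0), (6, 6, 0), (14, 0, 3), (15, 3, 1), (17, 1, 7)]),
  (180757, [(0, 0, 5), (2, 2, 1), (4, 4, 6), (9, 5, 6), (14, 6, 3), (15, 3, 1), (17, 1, 7)]),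
  (180788, [(2, 2, 1), (4, 4, 6), (5, 5, 0), (9, 0, 6), (14, 6, 3), (15, 3, 1), (17, 1, 7)]),
  (184341, [(0, 0, 6), (2, 2, 1), (4, 4, 5), (12, 6, 5), (14, 5, 3), (15, 3, 1), (17, 1, 7)]),
  (184404, [(2, 2, 1), (4, 4, 5), (6, 6, 0), (12, 0, 5), (14, 5, 3), (15, 3, 1), (17, 1, 7)]),
  (188516, [(2, 2, 1), (5, 5, 0), (6, 6, 0), (13, 0, 4), (14, 4, 3), (15, 3, 1), (17, 1, 7)]),
  (188933, [(0, 0, 5), (2, 2, 1), (9, 5, 6), (13, 6, 4), (14, 4, 3), (15, 3, 1), (17, 1, 7)]),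
  (188964, [(2, 2, 1), (5, 5, 0), (9, 0, 6), (13, 6, 4), (14, 4, 3), (15, 3, 1), (17, 1, 7)]),
  (192517, [(0, 0, 6), (2, 2, 1), (12, 6, 5), (13, 5, 4), (14, 4, 3), (15, 3, 1), (17, 1, 7)]),
  (192580, [(2, 2, 1), (6, 6, 0), (12, 0, 5), (13, 5, 4), (14, 4, 3), (15, 3, 1), (17, 1, 7)]),
  (196970, [(1, 1, 0), (3, 3, 4), (5, 5, 0), (6, 6, 0), (8, 4, 0), (16, 0, 2), (17, 2, 7)]),
  (196978, [(1, 1, 0), (4, 4, 3), (5, 5, 0), (6, 6, 0), (8, 3, 0), (16, 0, 2), (17, 2, 7)]),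
  (197899, [(0, 0, 5), (1, 1, 6), (3, 3, 4), (8, 4, 5), (10, 5, 6), (16, 6, 2), (17, 2, 7)]),
  (197907, [(0, 0, 5), (1, 1, 6), (4, 4, 3), (8, 3, 5), (10, 5, 6), (16, 6, 2), (17, 2, 7)]),
  (197930, [(1, 1, 6), (3, 3, 4), (5, 5, 0), (8, 4, 0), (10, 0, 6), (16, 6, 2), (17, 2, 7)]),
  (197938, [(1, 1, 6), (4, 4, 3), (5, 5, 0), (8, 3, 0), (10, 0, 6), (16, 6, 2), (17, 2, 7)]),
  (198155, [(0, 0, 5), (1, 1, 6), (3, 3, 4), (9, 5, 4), (10, 4, 6), (16, 6, 2), (17, 2, 7)]),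
  (198163, [(0, 0, 5), (1, 1, 6), (4, 4, 3), (9, 5, 3), (10, 3, 6), (16, 6, 2), (17, 2, 7)]),
  (198186, [(1, 1, 6), (3, 3, 4), (5, 5, 0), (9, 0, 4), (10, 4, 6), (16, 6, 2), (17, 2, 7)]),
  (198194, [(1, 1, 6), (4, 4, 3), (5, 5, 0), (9, 0, 3), (10, 3, 6), (16, 6, 2), (17, 2, 7)]),
  (200971, [(0, 0, 6), (1, 1, 5), (3, 3, 4), (8, 4, 5), (12, 6, 5), (16, 5, 2), (17, 2, 7)]),
  (200979, [(0, 0, 6), (1, 1, 5), (4, 4, 3), (8, 3, 5), (12, 6, 5), (16, 5, 2), (17, 2, 7)]),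
  (201034, [(1, 1, 5), (3, 3, 4), (6, 6, 0), (8, 4, 5), (12, 0, 5), (16, 5, 2), (17, 2, 7)]),
  (201042, [(1, 1, 5), (4, 4, 3), (6, 6, 0), (8, 3, 5), (12, 0, 5), (16, 5, 2), (17, 2, 7)]),
  (204906, [(1, 1, 4), (3, 3, 4), (5, 5, 0), (6, 6, 0), (13, 0, 4), (16, 4, 2), (17, 2, 7)]),
  (205323, [(0, 0, 5), (1, 1, 4), (3, 3, 4), (9, 5, 6), (13, 6, 4), (16, 4, 2), (17, 2, 7)]),
  (205354, [(1, 1, 4), (3, 3, 4), (5, 5, 0), (9, 0, 6), (13, 6, 4), (16, 4, 2), (17, 2, 7)]),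
  (208907, [(0, 0, 6), (1, 1, 4), (3, 3, 4), (12, 6, 5), (13, 5, 4), (16, 4, 2), (17, 2, 7)]),
  (208970, [(1, 1, 4), (3, 3, 4), (6, 6, 0), (12, 0, 5), (13, 5, 4), (16, 4, 2), (17, 2, 7)]),
  (213106, [(1, 1, 3), (4, 4, 0), (5, 5, 0), (6, 6, 0), (14, 0, 3), (16, 3, 2), (17, 2, 7)]),
  (213523, [(0, 0, 5), (1, 1, 3), (4, 4, 6), (9, 5, 6), (14, 6, 3), (16, 3, 2), (17, 2, 7)]),
  (213554, [(1, 1, 3), (4, 4, 6), (5, 5, 0), (9, 0, 6), (14, 6, 3), (16, 3, 2), (17, 2, 7)]),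
  (217107, [(0, 0, 6), (1, 1, 3), (4, 4, 5), (12, 6, 5), (14, 5, 3), (16, 3, 2), (17, 2, 7)]),
  (217170, [(1, 1, 3), (4, 4, 5), (6, 6, 0), (12, 0, 5), (14, 5, 3), (16, 3, 2), (17, 2, 7)]),
  (221282, [(1, 1, 3), (5, 5, 0), (6, 6, 0), (13, 0, 4), (14, 4, 3), (16, 3, 2), (17, 2, 7)]),
  (221699, [(0, 0, 5), (1, 1, 3), (9, 5, 6), (13, 6, 4), (14, 4, 3), (16, 3, 2), (17, 2, 7)]),
  (221730, [(1, 1, 3), (5, 5, 0), (9, 0, 6), (13, 6, 4), (14, 4, 3), (16, 3, 2), (17, 2, 7)]),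
  (225283, [(0, 0, 6), (1, 1, 3), (12, 6, 5), (13, 5, 4), (14, 4, 3), (16, 3, 2), (17, 2, 7)]),
  (225346, [(1, 1, 3), (6, 6, 0), (12, 0, 5), (13, 5, 4), (14, 4, 3), (16, 3, 2), (17, 2, 7)]),
  (229736, [(3, 3, 4), (5, 5, 0), (6, 6, 0), (8, 4, 0), (15, 0, 1), (16, 1, 2), (17, 2, 7)]),
  (229744, [(4, 4, 3), (5, 5, 0), (6, 6, 0), (8, 3, 0), (15, 0, 1), (16, 1, 2), (17, 2, 7)]),
  (230665, [(0, 0, 5), (3, 3, 4), (8, 4, 5), (10, 5, 6), (15, 6, 1), (16, 1, 2), (17, 2, 7)]),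
  (230673, [(0, 0, 5), (4, 4, 3), (8, 3, 5), (10, 5, 6), (15, 6, 1), (16, 1, 2), (17, 2, 7)]),
  (230696, [(3, 3, 4), (5, 5, 0), (8, 4, 0), (10, 0, 6), (15, 6, 1), (16, 1, 2), (17, 2, 7)]),
  (230704, [(4, 4, 3), (5, 5, 0), (8, 3, 0), (10, 0, 6), (15, 6, 1), (16, 1, 2), (17, 2, 7)]),
  (230921, [(0, 0, 5), (3, 3, 4), (9, 5, 4), (10, 4, 6), (15, 6, 1), (16, 1, 2), (17, 2, 7)]),
  (230929, [(0, 0, 5), (4, 4, 3), (9, 5, 3), (10, 3, 6), (15, 6, 1), (16, 1, 2), (17, 2, 7)]),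
  (230952, [(3, 3, 4), (5, 5, 0), (9, 0, 4), (10, 4, 6), (15, 6, 1), (16, 1, 2), (17, 2, 7)]),
  (230960, [(4, 4, 3), (5, 5, 0), (9, 0, 3), (10, 3, 6), (15, 6, 1), (16, 1, 2), (17, 2, 7)]),
  (233737, [(0, 0, 6), (3, 3, 4), (8, 4, 5), (12, 6, 5), (15, 5, 1), (16, 1, 2), (17, 2, 7)]),
  (233745, [(0, 0, 6), (4, 4, 3), (8, 3, 5), (12, 6, 5), (15, 5, 1), (16, 1, 2), (17, 2, 7)]),
  (233800, [(3, 3, 4), (6, 6, 0), (8, 4, 5), (12, 0, 5), (15, 5, 1), (16, 1, 2), (17, 2, 7)]),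
  (233808, [(4, 4, 3), (6, 6, 0), (8, 3, 5), (12, 0, 5), (15, 5, 1), (16, 1, 2), (17, 2, 7)]),
  (237672, [(3, 3, 4), (5, 5, 0), (6, 6, 0), (13, 0, 4), (15, 4, 1), (16, 1, 2), (17, 2, 7)]),
  (238089, [(0, 0, 5), (3, 3, 4), (9, 5, 6), (13, 6, 4), (15, 4, 1), (16, 1, 2), (17, 2, 7)]),
  (238120, [(3, 3, 4), (5, 5, 0), (9, 0, 6), (13, 6, 4), (15, 4, 1), (16, 1, 2), (17, 2, 7)]),
  (241673, [(0, 0, 6), (3, 3, 4), (12, 6, 5), (13, 5, 4), (15, 4, 1), (16, 1, 2), (17, 2, 7)]),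
  (241736, [(3, 3, 4), (6, 6, 0), (12, 0, 5), (13, 5, 4), (15, 4, 1), (16, 1, 2), (17, 2, 7)]),
  (245872, [(4, 4, 0), (5, 5, 0), (6, 6, 0), (14, 0, 3), (15, 3, 1), (16, 1, 2), (17, 2, 7)]),
  (246289, [(0, 0, 5), (4, 4, 6), (9, 5, 6), (14, 6, 3), (15, 3, 1), (16, 1, 2), (17, 2, 7)]),
  (246320, [(4, 4, 6), (5, 5, 0), (9, 0, 6), (14, 6, 3), (15, 3, 1), (16, 1, 2), (17, 2, 7)]),
  (249873, [(0, 0, 6), (4, 4, 5), (12, 6, 5), (14, 5, 3), (15, 3, 1), (16, 1, 2), (17, 2, 7)]),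
  (249936, [(4, 4, 5), (6, 6, 0), (12, 0, 5), (14, 5, 3), (15, 3, 1), (16, 1, 2), (17, 2, 7)]),
  (254048, [(5, 5, 0), (6, 6, 0), (13, 0, 4), (14, 4, 3), (15, 3, 1), (16, 1, 2), (17, 2, 7)]),
  (254465, [(0, 0, 5), (9, 5, 6), (13, 6, 4), (14, 4, 3), (15, 3, 1), (16, 1, 2), (17, 2, 7)]),
  (254496, [(5, 5, 0), (9, 0, 6), (13, 6, 4), (14, 4, 3), (15, 3, 1), (16, 1, 2), (17, 2, 7)]),
  (258049, [(0, 0, 6), (12, 6, 5), (13, 5, 4), (14, 4, 3), (15, 3, 1), (16, 1, 2), (17, 2, 7)]),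
  (258112, [(6, 6, 0), (12, 0, 5), (13, 5, 4), (14, 4, 3), (15, 3, 1), (16, 1, 2), (17, 2, 7)])]

/-- The masks of the facets. -/
def facM : List ℕ := facL.map Prod.fst

/-- Search trees. -/
inductive BT where
  | nil : BT
  | node (k v : ℕ) (l r : BT) : BT

/-- Search. -/
def BT.find : BT → ℕ → Option ℕ
  | nil, _ => none
  | node k v l r, x => if x < k then l.find x else if k < x then r.find x else some v

/-- The keys. -/
def BT.keys : BT → List ℕ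
  | nil => []
  | node k _ l r => l.keys ++ k :: r.keys

theorem BT.mem_of_find (t : BT) (x v : ℕ) (h : t.find x = some v) : x ∈ t.keys := by
  induction t with
  | nil => simp [BT.find] at h
  | node k v' l r ihl ihr =>
    rw [BT.find] at h
    rw [BT.keys, List.mem_append, List.mem_cons]
    split_ifs at h with h1 h2
    · exact Or.inl (ihl h)
    · exact Or.inr (Or.inr (ihr h))
    · exact Or.inr (Or.inl (by omega))

/-- The shedding vertices. -/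
def shed : BT :=
  (.node 225811 4 (.node 155886 1 (.node 134923 8 (.node 134035 8 (.node 133806 1 (.node 133550 1
  (.node 131574 1 (.node 131566 1 .nil .nil) .nil) (.node 133566 3 (.node 133558 1 .nil .nil)
  .nil)) (.node 134029 8 (.node 134027 8 (.node 133814 1 .nil .nil) .nil) (.node 134031 1 .nil
  .nil))) (.node 134590 7 (.node 134446 1 (.node 134039 1 (.node 134037 8 .nil .nil) .nil) (.node
  134462 3 (.node 134454 1 .nil .nil) .nil)) (.node 134830 7 (.node 134710 1 (.node 134702 1 .nil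
  .nil) .nil) (.node 134838 7 .nil .nil)))) (.node 143822 1 (.node 135055 7 (.node 134931 8 (.node
  134927 1 (.node 134925 8 .nil .nil) .nil) (.node 134935 1 (.node 134933 8 .nil .nil) .nil))
  (.node 143818 8 (.node 139950 1 (.node 135063 7 .nil .nil) .nil) (.node 143820 8 .nil .nil)))
  (.node 147702 1 (.node 144267 8 (.node 144013 9 (.node 144011 9 .nil .nil) .nil) (.node 144271 1
  (.node 144269 8 .nil .nil) .nil)) (.node 155882 3 (.node 152213 9 (.node 152211 9 .nil .nil)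
  .nil) (.node 155884 3 .nil .nil))))) (.node 176909 8 (.node 160403 4 (.node 160210 8 (.node
  156342 1 (.node 156340 4 (.node 156338 4 .nil .nil) .nil) (.node 159956 4 (.node 159954 4 .nil
  .nil) .nil)) (.node 160387 9 (.node 160214 1 (.node 160212 8 .nil .nil) .nil) (.node 160389 9
  .nil .nil))) (.node 165645 8 (.node 160661 8 (.node 160659 8 (.node 160405 4 .nil .nil) .nil)
  (.node 165180 3 (.node 160663 1 .nil .nil) .nil)) (.node 176460 8 (.node 167358 15 (.node 165653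
  8 .nil .nil) .nil) (.node 176653 9 .nil .nil)))) (.node 197946 3 (.node 192596 4 (.node 188652 7
  (.node 188524 3 (.node 184853 9 .nil .nil) .nil) (.node 188980 4 (.node 188654 1 .nil .nil)
  .nil)) (.node 193045 4 (.node 193029 9 (.node 192852 8 .nil .nil) .nil) (.node 193301 8 .nil
  .nil))) (.node 217619 9 (.node 209226 8 (.node 198419 8 (.node 198411 8 .nil .nil) .nil) (.node
  209675 8 (.node 209419 9 .nil .nil) .nil)) (.node 225618 8 (.node 225362 4 (.node 221746 4 .nil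
  .nil) .nil) (.node 225795 9 .nil .nil)))))) (.node 245878 1 (.node 231191 1 (.node 230716 2
  (.node 229870 7 (.node 229742 1 (.node 229740 2 (.node 226067 8 .nil .nil) .nil) (.node 229750 1
  (.node 229748 2 .nil .nil) .nil)) (.node 230712 3 (.node 229886 3 (.node 229878 7 .nil .nil)
  .nil) (.node 230714 1 .nil .nil))) (.node 231177 8 (.node 230958 1 (.node 230956 2 (.node 230718
  1 .nil .nil) .nil) (.node 230966 1 (.node 230964 2 .nil .nil) .nil)) (.node 231185 8 (.node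
  231183 1 (.node 231181 2 .nil .nil) .nil) (.node 231189 2 .nil .nil)))) (.node 241996 2 (.node
  238126 1 (.node 232958 6 (.node 232894 7 (.node 232766 11 .nil .nil) .nil) (.node 238124 2
  (.node 237674 1 .nil .nil) .nil)) (.node 241326 11 (.node 239278 7 (.node 239150 10 .nil .nil)
  .nil) (.node 241992 8 .nil .nil))) (.node 242447 1 (.node 242185 9 (.node 242126 7 (.node 241998
  1 .nil .nil) .nil) (.node 242445 2 (.node 242441 8 .nil .nil) .nil)) (.node 245647 11 (.node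
  243599 7 (.node 243471 10 .nil .nil) .nil) (.node 245876 2 .nil .nil))))) (.node 258046 6 (.node
  254462 4 (.node 254050 1 (.node 246270 3 (.node 246262 8 (.node 246006 7 .nil .nil) .nil) (.node
  250385 9 (.node 249342 14 .nil .nil) .nil)) (.node 254190 7 (.node 254062 2 (.node 254058 3 .nil
  .nil) .nil) (.node 254446 8 .nil .nil))) (.node 256510 11 (.node 254518 1 (.node 254516 2 (.node
  254512 4 .nil .nil) .nil) (.node 255670 7 (.node 255542 10 .nil .nil) .nil)) (.node 257726 3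
  (.node 257718 11 (.node 257534 10 .nil .nil) .nil) (.node 257982 8 .nil .nil)))) (.node 258837 2
  (.node 258526 3 (.node 258388 2 (.node 258384 8 (.node 258128 4 .nil .nil) .nil) (.node 258518 7
  (.node 258390 1 .nil .nil) .nil)) (.node 258577 4 (.node 258561 9 (.node 258558 5 .nil .nil)
  .nil) (.node 258833 8 .nil .nil))) (.node 262039 11 (.node 259991 7 (.node 259863 10 (.node
  258839 1 .nil .nil) .nil) (.node 261630 10 (.node 260606 11 .nil .nil) .nil)) (.node 262142 9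
  (.node 262111 6 (.node 262047 3 .nil .nil) .nil) (.node 262143 0 .nil .nil)))))))

/-- The facets as a search tree. -/
def facT : BT :=
  (.node 165389 0 (.node 135626 0 (.node 134411 0 (.node 133554 0 (.node 133517 0 (.node 131570 0
  (.node 131564 0 (.node 131562 0 .nil .nil) .nil) (.node 133515 0 (.node 131572 0 .nil .nil)
  .nil)) (.node 133546 0 (.node 133525 0 (.node 133523 0 .nil .nil) .nil) (.node 133548 0 .nil
  .nil))) (.node 133781 0 (.node 133773 0 (.node 133771 0 (.node 133556 0 .nil .nil) .nil) (.node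
  133779 0 .nil .nil)) (.node 133810 0 (.node 133804 0 (.node 133802 0 .nil .nil) .nil) (.node
  133812 0 .nil .nil)))) (.node 134675 0 (.node 134444 0 (.node 134421 0 (.node 134419 0 (.node
  134413 0 .nil .nil) .nil) (.node 134442 0 .nil .nil)) (.node 134667 0 (.node 134452 0 (.node
  134450 0 .nil .nil) .nil) (.node 134669 0 .nil .nil))) (.node 134708 0 (.node 134700 0 (.node
  134698 0 (.node 134677 0 .nil .nil) .nil) (.node 134706 0 .nil .nil)) (.node 135571 0 (.node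
  135565 0 (.node 135563 0 .nil .nil) .nil) (.node 135573 0 .nil .nil))))) (.node 151699 0 (.node
  143499 0 (.node 139500 0 (.node 135636 0 (.node 135634 0 (.node 135628 0 .nil .nil) .nil) (.node
  139498 0 .nil .nil)) (.node 139946 0 (.node 139917 0 (.node 139915 0 .nil .nil) .nil) (.node
  139948 0 .nil .nil))) (.node 147700 0 (.node 143564 0 (.node 143562 0 (.node 143501 0 .nil .nil)
  .nil) (.node 147698 0 .nil .nil)) (.node 148146 0 (.node 148117 0 (.node 148115 0 .nil .nil)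
  .nil) (.node 148148 0 .nil .nil)))) (.node 159875 0 (.node 155876 0 (.node 151764 0 (.node
  151762 0 (.node 151701 0 .nil .nil) .nil) (.node 155874 0 .nil .nil)) (.node 156322 0 (.node
  156293 0 (.node 156291 0 .nil .nil) .nil) (.node 156324 0 .nil .nil))) (.node 164212 0 (.node
  159940 0 (.node 159938 0 (.node 159877 0 .nil .nil) .nil) (.node 164204 0 .nil .nil)) (.node
  165164 0 (.node 165141 0 (.node 165133 0 .nil .nil) .nil) (.node 165172 0 .nil .nil)))))) (.node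
  208970 0 (.node 192517 0 (.node 176141 0 (.node 168268 0 (.node 165428 0 (.node 165420 0 (.node
  165397 0 .nil .nil) .nil) (.node 168213 0 (.node 168205 0 .nil .nil) .nil)) (.node 172557 0
  (.node 172140 0 (.node 168276 0 .nil .nil) .nil) (.node 172588 0 .nil .nil))) (.node 184341 0
  (.node 180757 0 (.node 180340 0 (.node 176204 0 .nil .nil) .nil) (.node 180788 0 .nil .nil))
  (.node 188933 0 (.node 188516 0 (.node 184404 0 .nil .nil) .nil) (.node 188964 0 .nil .nil))))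
  (.node 198186 0 (.node 197907 0 (.node 196978 0 (.node 196970 0 (.node 192580 0 .nil .nil) .nil)
  (.node 197899 0 .nil .nil)) (.node 198155 0 (.node 197938 0 (.node 197930 0 .nil .nil) .nil)
  (.node 198163 0 .nil .nil))) (.node 201042 0 (.node 200979 0 (.node 200971 0 (.node 198194 0
  .nil .nil) .nil) (.node 201034 0 .nil .nil)) (.node 205354 0 (.node 205323 0 (.node 204906 0
  .nil .nil) .nil) (.node 208907 0 .nil .nil))))) (.node 230960 0 (.node 225346 0 (.node 217170 0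
  (.node 213554 0 (.node 213523 0 (.node 213106 0 .nil .nil) .nil) (.node 217107 0 .nil .nil))
  (.node 221730 0 (.node 221699 0 (.node 221282 0 .nil .nil) .nil) (.node 225283 0 .nil .nil)))
  (.node 230696 0 (.node 230665 0 (.node 229744 0 (.node 229736 0 .nil .nil) .nil) (.node 230673 0
  .nil .nil)) (.node 230929 0 (.node 230921 0 (.node 230704 0 .nil .nil) .nil) (.node 230952 0
  .nil .nil)))) (.node 245872 0 (.node 237672 0 (.node 233800 0 (.node 233745 0 (.node 233737 0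
  .nil .nil) .nil) (.node 233808 0 .nil .nil)) (.node 241673 0 (.node 238120 0 (.node 238089 0
  .nil .nil) .nil) (.node 241736 0 .nil .nil))) (.node 254048 0 (.node 249873 0 (.node 246320 0
  (.node 246289 0 .nil .nil) .nil) (.node 249936 0 .nil .nil)) (.node 258049 0 (.node 254496 0
  (.node 254465 0 .nil .nil) .nil) (.node 258112 0 .nil .nil)))))))

/-- The filtration: set, new vertex, larger set, star. -/
def filt : List (ℕ × ℕ × ℕ × ℕ) :=
[(133566, 10, 134590, 134462), (134462, 7, 134590, 133566), (134590, 15, 167358, 165180),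
  (139500, 14, 155884, 155876), (155876, 3, 155884, 139500), (155882, 2, 155886, 155884),
  (155884, 1, 155886, 155882), (155886, 15, 188654, 188524), (165180, 16, 230716, 230712),
  (167358, 16, 232894, 230714), (188524, 7, 188652, 155884), (188652, 1, 188654, 155882),
  (188654, 16, 254190, 254058), (197946, 15, 230714, 230712), (229870, 4, 229886, 229878),
  (229878, 3, 229886, 229870), (229886, 14, 246270, 246006), (230712, 1, 230714, 197946),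
  (230714, 2, 230718, 165180), (230716, 1, 230718, 197946), (230718, 11, 232766, 134462),
  (232766, 7, 232894, 133566), (232894, 6, 232958, 229886), (232958, 14, 249342, 246006),
  (246006, 8, 246262, 229878), (246262, 3, 246270, 229870), (246270, 13, 254462, 254190),
  (249342, 13, 257534, 254190), (254058, 2, 254062, 188524), (254062, 7, 254190, 155886),
  (254190, 8, 254446, 229870), (254446, 4, 254462, 246262), (254462, 11, 256510, 133566),
  (256510, 10, 257534, 232766), (257534, 9, 258046, 257726), (257726, 8, 257982, 232894),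
  (257982, 6, 258046, 254462), (258046, 12, 262142, 258526), (258526, 5, 258558, 254462),
  (258558, 11, 260606, 133566), (260606, 10, 261630, 232766), (261630, 9, 262142, 257726),
  (262047, 6, 262111, 258526), (262111, 5, 262143, 258046), (262142, 0, 262143, 262047)]

/-- Remove a vertex from a mask. -/
def del (W σ : ℕ) : ℕ := W ^^^ 2 ^ σ

/-- The star of a vertex in a mask. -/
def star (W σ : ℕ) : ℕ := W &&& nbm σ

/-- Look up the shedding vertex. -/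
def look (W : ℕ) : Option ℕ := shed.find W

/-- The decomposition tree of a set. -/
def tree : ℕ → ℕ → Tree
  | 0, _ => .leaf
  | n + 1, W => match look W with
    | none => .leaf
    | some σ => .node σ (tree n (del W σ)) (tree n (star W σ))

/-- Check of a tree. -/
def wfB : Tree → ℕ → Bool
  | .leaf, W => (facT.find W).isSome
  | .node σ a b, W => decide (σ < 18) && W.testBit σ && wfB a (del W σ) && wfB b (star W σ)

/-- The number of facets inside a mask. -/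
def nu (W : ℕ) : ℕ := (facM.filter fun F => F &&& W == F).length

/-- The value of a point. -/
def pt (t : List (ℕ × ℕ × ℕ)) (k : ℕ) : ℤ :=
  match t.lookup k with
  | none => 0
  | some ij => (ij.2 : ℤ) - ij.1

/-- incidence as an integer -/
def inc (k i : ℕ) : ℤ := if (mk k).testBit i then 1 else 0

theorem check_keys : facT.keys = facM := by decide +kernel

theorem check_filt : (filt.all fun x => decide (x.2.1 < 18) && x.2.2.1.testBit x.2.1 &&
    x.1 == del x.2.2.1 x.2.1 && decide (x.1 < x.2.2.1) && decide (x.2.2.1 < 2 ^ 18) &&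
    x.2.2.2 == star x.2.2.1 x.2.1 &&
    (filt.any (fun y => y.1 == x.2.2.1) || x.2.2.1 == 262143) &&
    (filt.any (fun y => y.1 == x.2.2.2) || x.2.2.2 == 262143) &&
    decide ((tree 18 x.1).size + (tree 18 x.2.2.2).size ≤ nu x.2.2.1)) = true := by
  decide +kernel

theorem check_wf : (filt.all fun x => wfB (tree 18 x.1) x.1) = true := by decide +kernel

theorem check_wf_top : wfB (tree 18 262143) 262143 = true := by decide +kernel

theorem check_size : (tree 18 262143).size = 161 ∧ facM.length = 161 ∧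
    nu 262143 = 161 := by decide +kernel

theorem check_h : (List.range 9).map (tree 18 262143).hvec = [1, 11, 39, 59, 39, 11, 1, 0, 0] := by
  decide +kernel

/-- The height of a tree. -/
def ht : Tree → ℕ
  | .leaf => 0
  | .node _ a b => max (ht a) (ht b + 1)

theorem hvec_eq_zero (T : Tree) (n : ℕ) (h : ht T < n) : T.hvec n = 0 := by
  induction T generalizing n with
  | leaf =>
    cases n with
    | zero => exact absurd h (Nat.not_lt_zero _)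
    | succ n => rfl
  | node σ a b iha ihb =>
    rw [ht, max_lt_iff] at h
    cases n with
    | zero => exact absurd h.1 (Nat.not_lt_zero _)
    | succ n => rw [Tree.hvec, iha _ h.1, ihb _ (by omega)]

theorem check_ht : ht (tree 18 262143) = 6 := by decide +kernel

theorem check_fac_lt : (facM.all fun F => decide (F < 2 ^ 18)) = true := by decide +kernel

theorem check_anti : (facM.all fun F => facM.all fun G => !(F &&& G == F) || F == G) = true := by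
  decide +kernel

theorem check_nodup : facM.Nodup := by decide +kernel

theorem check_clique : (facM.all fun F => (List.range 18).all fun k =>
    !(F.testBit k) || (F &&& nbm k == F)) = true := by decide +kernel

theorem check_supp : (facL.all fun x => (List.range 18).all fun k =>
    (pt x.2 k != 0) == x.1.testBit k) = true := by decide +kernel

theorem check_val : (facL.all fun x => (List.range 7).all fun s =>
    ((List.range 18).map fun k => inc k s * pt x.2 k).sum == 7 - (s : ℤ)) = true := by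
  decide +kernel

theorem check_dual : (facL.all fun x => (List.range 18).all fun k => !(x.1.testBit k) ||
    match x.2.lookup k with
    | none => false
    | some ij => decide (ij.1 < 7) && (List.range 18).all fun u => !(x.1.testBit u) ||
      (inc u ij.1 - (if ij.2 < 7 then inc u ij.2 else 0) == if u = k then 1 else 0)) = true := by
  decide +kernel

end Pool.Agent.X221.Koszul.Cert
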