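import Mathlib
import Pool.Agent.X221.Koszul.Cert

/-!
# From the certificate to the Koszul property
-/

namespace Pool.Agent.X221.Koszul.Cert

open MvPolynomial

variable {V : Type} [Fintype V] (e : V ≃ Fin 18)

/-- The vertex set of a mask. -/
def toV (m : ℕ) : Set V := {v | m.testBit (e v) = true}

/-- The vertex of an index. -/
def vx (k : ℕ) : V := e.symm (Fin.ofNat 18 k)

/-- The linear forms. -/
def th : Fin 7 → V → ℚ := fun i v => (inc (e v) i : ℚ)

/-- The relation is the one of the certificate. -/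
def Non (non : V → V → Prop) : Prop := ∀ u v, non u v ↔ (nbm (e u)).testBit (e v) = false

omit [Fintype V] in
lemma mem_toV {m : ℕ} {v : V} : v ∈ toV e m ↔ m.testBit (e v) = true := Iff.rfl

omit [Fintype V] in
lemma e_vx {k : ℕ} (hk : k < 18) : (e (vx e k) : ℕ) = k := by
  rw [vx, Equiv.apply_symm_apply]
  exact Nat.mod_eq_of_lt hk

omit [Fintype V] in
lemma eq_vx {k : ℕ} (hk : k < 18) (v : V) : v = vx e k ↔ (e v : ℕ) = k := by
  constructor
  · intro h; rw [h, e_vx e hk]
  · intro h
    apply e.injective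
    apply Fin.ext
    rw [e_vx e hk, h]

lemma mem_facM {F : ℕ} (h : F ∈ facM) : ∃ l, (F, l) ∈ facL := by
  rw [facM, List.mem_map] at h
  obtain ⟨⟨a, b⟩, h, rfl⟩ := h
  exact ⟨b, h⟩

lemma fst_mem {x : ℕ × List (ℕ × ℕ × ℕ)} (h : x ∈ facL) : x.1 ∈ facM :=
  List.mem_map.2 ⟨x, h, rfl⟩

lemma bits_ge {F : ℕ} (h : F ∈ facM) {k : ℕ} (hk : 18 ≤ k) : F.testBit k = false := by
  have h1 := List.all_eq_true.1 check_fac_lt F h
  have h2 : F < 2 ^ 18 := by simpa using h1
  exact Nat.testBit_lt_two_pow (lt_of_lt_of_le h2 (Nat.pow_le_pow_right (by norm_num) hk))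

omit [Fintype V] in
lemma and_eq_of_subset {F G : ℕ} (hF : F ∈ facM) (h : toV e F ⊆ toV e G) : F &&& G = F := by
  apply Nat.eq_of_testBit_eq
  intro k
  rw [Nat.testBit_and]
  by_cases hk : k < 18
  · cases hb : F.testBit k
    · rfl
    · have h1 : vx e k ∈ toV e F := by rw [mem_toV, e_vx e hk]; exact hb
      have h2 := h h1
      rw [mem_toV, e_vx e hk] at h2
      rw [h2]; rfl
  · rw [bits_ge hF (by omega)]; rfl

omit [Fintype V] in
lemma subset_of_and_eq {F G : ℕ} (h : F &&& G = F) : toV e F ⊆ toV e G := by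
  intro v hv
  rw [mem_toV] at hv ⊢
  rw [← h, Nat.testBit_and, Bool.and_eq_true] at hv
  exact hv.2

lemma sum_delta (a k : ℕ) :
    ∑ s : Fin 7, (if s.val = a then (1 : ℚ) else 0) * (inc k s : ℚ) =
      if a < 7 then (inc k a : ℚ) else 0 := by
  split_ifs with h
  · rw [Finset.sum_eq_single ⟨a, h⟩]
    · simp
    · intro b _ hb
      rw [if_neg, zero_mul]
      intro h'
      exact hb (Fin.ext h')
    · intro h; exact absurd (Finset.mem_univ _) h
  · refine Finset.sum_eq_zero fun s _ => ?_
    rw [if_neg, zero_mul]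
    have := s.isLt
    omega

omit [Fintype V] in
theorem simp_fac {x : ℕ × List (ℕ × ℕ × ℕ)} (hx : x ∈ facL) : Simp (th e) (toV e x.1) := by
  intro v hv
  rw [mem_toV] at hv
  have h1 := List.all_eq_true.1 check_dual x hx
  have h2 := List.all_eq_true.1 h1 (e v) (List.mem_range.2 (e v).isLt)
  rw [hv] at h2
  simp only [Bool.not_true, Bool.false_or] at h2
  cases hl : x.2.lookup (e v : ℕ) with
  | none => rw [hl] at h2; simp at h2
  | some ij =>
    rw [hl] at h2
    simp only [Bool.and_eq_true, decide_eq_true_eq, List.all_eq_true, List.mem_range] at h2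
    obtain ⟨hi, h3⟩ := h2
    refine ⟨fun s => (if s.val = ij.1 then 1 else 0) - (if s.val = ij.2 then 1 else 0), ?_⟩
    intro u hu
    rw [mem_toV] at hu
    have h4 := h3 (e u) (e u).isLt
    rw [hu] at h4
    simp only [Bool.not_true, Bool.false_or, beq_iff_eq] at h4
    have h5 : ∑ s : Fin 7, ((if s.val = ij.1 then (1 : ℚ) else 0) -
        (if s.val = ij.2 then 1 else 0)) * th e s u =
        ((if (e u : ℕ) = e v then 1 else 0 : ℤ) : ℚ) := by
      rw [← h4]
      simp only [sub_mul, Finset.sum_sub_distrib, th, sum_delta]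
      rw [if_pos hi]
      push_cast
      rfl
    constructor
    · intro huv
      rw [h5, huv]; simp
    · intro huv
      rw [h5, if_neg]
      · simp
      · intro h
        exact huv (e.injective (Fin.ext h))

/-- The points. -/
noncomputable def points {non : V → V → Prop} (hnon : Non e non) : Points non (th e) where
  L := {x // x ∈ facL}
  fin := (List.finite_toSet facL).fintype
  F x := toV e x.1.1
  p x v := (pt x.1.2 (e v) : ℚ)
  c i := 7 - (i : ℚ)
  supp := by
    intro x v
    have h1 := List.all_eq_true.1 check_supp x.1 x.2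
    have h2 := List.all_eq_true.1 h1 (e v) (List.mem_range.2 (e v).isLt)
    rw [mem_toV]
    rw [beq_iff_eq] at h2
    rw [← h2, bne_iff_ne, Int.cast_ne_zero]
  cl := by
    intro x u v h ⟨hu, hv⟩
    rw [mem_toV] at hu hv
    have h1 := List.all_eq_true.1 check_clique x.1.1 (fst_mem x.2)
    have h2 := List.all_eq_true.1 h1 (e u) (List.mem_range.2 (e u).isLt)
    rw [hu] at h2
    simp only [Bool.not_true, Bool.false_or, beq_iff_eq] at h2
    rw [← h2, Nat.testBit_and, (hnon u v).1 h, Bool.and_false] at hv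
    exact absurd hv (by decide)
  val := by
    intro x i
    have h1 := List.all_eq_true.1 check_val x.1 x.2
    have h2 := List.all_eq_true.1 h1 i (List.mem_range.2 i.isLt)
    rw [beq_iff_eq] at h2
    have h3 : ∑ v, th e i v * (pt x.1.2 (e v) : ℚ) =
        ∑ k : Fin 18, ((inc k i * pt x.1.2 k : ℤ) : ℚ) := by
      rw [← Equiv.sum_comp e]
      refine Finset.sum_congr rfl fun v _ => ?_
      rw [th]; push_cast; rfl
    have h4 : ∑ k : Fin 18, (inc k i * pt x.1.2 k : ℤ) =
        ((List.range 18).map fun k => inc k i * pt x.1.2 k).sum := by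
      rw [Fin.sum_univ_eq_sum_range (fun k => inc k i * pt x.1.2 k)]
      rfl
    rw [h3, ← Int.cast_sum, h4, h2]
    push_cast
    rfl
  anti := by
    intro x y h
    have h1 := and_eq_of_subset e (fst_mem x.2) h
    have h2 := List.all_eq_true.1 check_anti x.1.1 (fst_mem x.2)
    have h3 := List.all_eq_true.1 h2 y.1.1 (fst_mem y.2)
    rw [h1] at h3
    simp only [BEq.rfl, Bool.not_true, Bool.false_or, beq_iff_eq] at h3
    apply Subtype.ext
    exact List.inj_on_of_nodup_map check_nodup x.2 y.2 h3

theorem nu_le {non : V → V → Prop} (hnon : Non e non) (W : ℕ) :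
    nu W ≤ Fintype.card ((points e hnon).In (toV e W)) := by
  let l := facL.filter (fun x => x.1 &&& W == x.1)
  have h1 : nu W = l.length := by
    rw [nu, facM, List.filter_map, List.length_map]
    rfl
  have hnd : l.Nodup := (List.Nodup.of_map _ check_nodup).filter _
  have hmem : ∀ i : Fin l.length, l.get i ∈ facL ∧ (l.get i).1 &&& W = (l.get i).1 := by
    intro i
    have := List.get_mem l i
    rw [List.mem_filter] at this
    exact ⟨this.1, by simpa using this.2⟩
  let f : Fin l.length → (points e hnon).In (toV e W) := fun i =>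
    ⟨⟨l.get i, (hmem i).1⟩, subset_of_and_eq e (hmem i).2⟩
  have hf : Function.Injective f := by
    intro i j h
    have h2 : l.get i = l.get j := congrArg (fun z => z.1.1) h
    exact (List.Nodup.get_inj_iff hnd).1 h2
  have := Fintype.card_le_of_injective f hf
  rw [Fintype.card_fin] at this
  rw [h1]; exact this

theorem wf_of {non : V → V → Prop} (hnon : Non e non) (T : Tree) (W : ℕ) (h : wfB T W = true) :
    WF non (Simp (th e)) (vx e) T (toV e W) := by
  induction T generalizing W with
  | leaf =>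
    rw [wfB, Option.isSome_iff_exists] at h
    obtain ⟨v, hv⟩ := h
    have h1 := BT.mem_of_find _ _ _ hv
    rw [check_keys] at h1
    obtain ⟨l, hl⟩ := mem_facM h1
    exact simp_fac e hl
  | node σ a b iha ihb =>
    rw [wfB] at h
    simp only [Bool.and_eq_true, decide_eq_true_eq] at h
    obtain ⟨⟨⟨hσ, hW⟩, ha⟩, hb⟩ := h
    refine ⟨toV e (star W σ), ?_, ?_, ihb _ hb⟩
    · intro u hu hu'
      rw [mem_toV] at hu
      rw [mem_toV, star, Nat.testBit_and, hu, Bool.true_and] at hu'
      rw [hnon, e_vx e hσ]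
      simpa using hu'
    · have : toV e W \ {vx e σ} = toV e (del W σ) := by
        ext v
        rw [Set.mem_sdiff, Set.mem_singleton_iff, mem_toV, mem_toV, del, Nat.testBit_xor,
          Nat.testBit_two_pow, eq_vx e hσ]
        by_cases hv : σ = (e v : ℕ)
        · rw [← hv, hW]; simp
        · simp [hv, Ne.symm hv]
      rw [this]
      exact iha _ ha

/-- Index set of the filtration. -/
def FT : Type := {t : ℕ // t ∈ filt.map Prod.fst ∨ t = 262143}

omit [Fintype V] in
lemma toV_top : toV e 262143 = Set.univ := by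
  ext v
  rw [mem_toV]
  have : (262143 : ℕ) = 2 ^ 18 - 1 := by norm_num
  rw [this, Nat.testBit_two_pow_sub_one]
  simp

lemma mem_FT {m : ℕ} (h : (filt.any (fun y => y.1 == m) || m == 262143) = true) :
    m ∈ filt.map Prod.fst ∨ m = 262143 := by
  rw [Bool.or_eq_true, List.any_eq_true] at h
  rcases h with ⟨y, hy, h⟩ | h
  · left
    rw [beq_iff_eq] at h
    exact List.mem_map.2 ⟨y, hy, h⟩
  · right; simpa using h

/-- The filtration. -/
noncomputable def filtration {non : V → V → Prop} (hnon : Non e non) :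
    Filt (points e hnon) (Simp (th e)) (vx e) where
  T := FT
  W t := toV e t.1
  tr t := tree 18 t.1
  wf := by
    rintro ⟨t, ht | rfl⟩
    · rw [List.mem_map] at ht
      obtain ⟨x, hx, rfl⟩ := ht
      exact wf_of e hnon _ _ (List.all_eq_true.1 check_wf x hx)
    · exact wf_of e hnon _ _ check_wf_top
  rk t := 2 ^ 18 - t.1
  step := by
    rintro ⟨t, ht | rfl⟩
    · right
      rw [List.mem_map] at ht
      obtain ⟨x, hx, rfl⟩ := ht
      have h1 := List.all_eq_true.1 check_filt x hx
      simp only [Bool.and_eq_true, decide_eq_true_eq] at h1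
      obtain ⟨⟨⟨⟨⟨⟨⟨⟨hσ, hb⟩, hd⟩, hlt⟩, hlt2⟩, hst⟩, hs⟩, hu⟩, hc⟩ := h1
      rw [beq_iff_eq] at hd hst
      refine ⟨⟨x.2.2.1, mem_FT hs⟩, ⟨x.2.2.2, mem_FT hu⟩, x.2.1, ?_, ?_, ?_, ?_, ?_⟩
      · show vx e x.2.1 ∈ toV e x.2.2.1
        rw [mem_toV, e_vx e hσ]; exact hb
      · show toV e x.1 = toV e x.2.2.1 \ {vx e x.2.1}
        rw [hd]
        ext v
        rw [Set.mem_sdiff, Set.mem_singleton_iff, mem_toV, mem_toV, del, Nat.testBit_xor,
          Nat.testBit_two_pow, eq_vx e hσ]
        by_cases hv : x.2.1 = (e v : ℕ)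
        · rw [← hv, hb]; simp
        · simp [hv, Ne.symm hv]
      · show 2 ^ 18 - x.2.2.1 < 2 ^ 18 - x.1
        omega
      · intro v hv hv'
        have hv1 : v ∈ toV e x.2.2.1 := hv
        have hv2 : v ∉ toV e x.2.2.2 := hv'
        rw [mem_toV] at hv1
        rw [mem_toV, hst, star, Nat.testBit_and, hv1, Bool.true_and] at hv2
        rw [hnon, e_vx e hσ]
        simpa using hv2
      · exact hc.trans (nu_le e hnon _)
    · left; exact toV_top e

theorem koszul {non : V → V → Prop} (hnon : Non e non) : IsKoszul (relI non (th e)) := by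
  refine isKoszul (fun F hF => hF) (filtration e hnon) ⟨139500, Or.inl (by decide +kernel)⟩ ?_
  have h1 : (139500 : ℕ) ∈ facM := by decide +kernel
  obtain ⟨l, hl⟩ := mem_facM h1
  exact simp_fac e hl

theorem hilbert {non : V → V → Prop} (hnon : Non e non) (n : ℕ) :
    Module.finrank ℚ (piece (relI non (th e)) n) = [1, 11, 39, 59, 39, 11, 1].getD n 0 := by
  have hT : WF non (Simp (th e)) (vx e) (tree 18 262143) Set.univ := by
    rw [← toV_top e]
    exact wf_of e hnon _ _ check_wf_top
  have hc : (tree 18 262143).size ≤ Fintype.card ((points e hnon).In Set.univ) := by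
    rw [check_size.1, ← check_size.2.2, ← toV_top e]
    exact nu_le e hnon _
  rw [finrank_piece (points e hnon) (fun F hF => hF) _ hT hc]
  by_cases hn : n < 7
  · have h := check_h
    have h1 : ∀ k < 9, (tree 18 262143).hvec k = [1, 11, 39, 59, 39, 11, 1, 0, 0].getD k 0 := by
      intro k hk
      rw [← h]
      simp only [List.getD_eq_getElem?_getD]
      rw [List.getElem?_map, List.getElem?_range hk]
      rfl
    rw [h1 n (by omega)]
    interval_cases n <;> rfl
  · rw [hvec_eq_zero _ _ (by rw [check_ht]; omega)]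
    rw [List.getD_eq_getElem?_getD, List.getElem?_eq_none (by simpa using hn)]
    rfl

end Pool.Agent.X221.Koszul.Cert
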