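import Mathlib
import Pool.Agent.X221.Koszul.Bridge

/-!
# Combinatorics of the building set
-/

namespace Pool.Agent.X221.Koszul.Cert

/-- The subset of a mask. -/
def setOf' (m : ℕ) : Set (Fin 7) := {i | m.testBit i = true}

theorem check_lt : ∀ k < 18, mk k < 128 := by decide +kernel

theorem check_inj : ∀ k < 18, ∀ l < 18, mk k = mk l → k = l := by decide +kernel

theorem check_masks : masks = (List.range 18).map mk := by decide +kernel

theorem check_single : ∀ i < 7, masks.contains (2 ^ i) = true := by decide +kernel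

theorem check_pos : ∀ k < 18, mk k ≠ 0 := by decide +kernel

theorem check_union : ∀ k < 18, ∀ l < 18, mk k &&& mk l = 0 ∨
    masks.contains (mk k ||| mk l) = true := by decide +kernel

theorem check_non : ∀ k < 18, ∀ l < 18, (¬ (mk k &&& mk l = mk k) ∧ ¬ (mk l &&& mk k = mk l) ∧
    masks.contains (mk k ||| mk l) = true) ↔ (nbm k).testBit l = false := by decide +kernel

lemma bits_ge' {m : ℕ} (h : m < 128) {i : ℕ} (hi : 7 ≤ i) : m.testBit i = false :=
  Nat.testBit_lt_two_pow (lt_of_lt_of_le h (by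
    have : (128 : ℕ) = 2 ^ 7 := by norm_num
    rw [this]; exact Nat.pow_le_pow_right (by norm_num) hi))

lemma setOf_inj {m n : ℕ} (hm : m < 128) (hn : n < 128) (h : setOf' m = setOf' n) : m = n := by
  apply Nat.eq_of_testBit_eq
  intro i
  by_cases hi : i < 7
  · have h1 : (⟨i, hi⟩ : Fin 7) ∈ setOf' m ↔ (⟨i, hi⟩ : Fin 7) ∈ setOf' n := by rw [h]
    rw [Bool.eq_iff_iff]
    exact h1
  · rw [bits_ge' hm (by omega), bits_ge' hn (by omega)]

lemma setOf_subset {m n : ℕ} (hm : m < 128) : setOf' m ⊆ setOf' n ↔ m &&& n = m := by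
  constructor
  · intro h
    apply Nat.eq_of_testBit_eq
    intro i
    rw [Nat.testBit_and]
    by_cases hi : i < 7
    · cases hb : m.testBit i
      · rfl
      · have : (⟨i, hi⟩ : Fin 7) ∈ setOf' n := h (show m.testBit i = true from hb)
        have h2 : n.testBit i = true := this
        rw [h2]; rfl
    · rw [bits_ge' hm (by omega)]; rfl
  · intro h i hi
    have hi' : m.testBit i = true := hi
    rw [← h, Nat.testBit_and, Bool.and_eq_true] at hi'
    exact hi'.2

lemma setOf_union (m n : ℕ) : setOf' (m ||| n) = setOf' m ∪ setOf' n := by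
  ext i
  show (m ||| n).testBit i = true ↔ m.testBit i = true ∨ n.testBit i = true
  rw [Nat.testBit_or, Bool.or_eq_true]

/-- The member with a given index. -/
def mem (k : Fin 18) : Set (Fin 7) := setOf' (mk k)

lemma mem_inj : Function.Injective mem := by
  intro k l h
  have := setOf_inj (check_lt k k.isLt) (check_lt l l.isLt) h
  exact Fin.ext (check_inj k k.isLt l l.isLt this)

/-- The building set. -/
def bset : Finset (Set (Fin 7)) := Finset.univ.map ⟨mem, mem_inj⟩

lemma mem_bset {G : Set (Fin 7)} : G ∈ bset ↔ ∃ k, mem k = G := by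
  simp [bset]

lemma setOf_mem_bset {m : ℕ} (hm : m < 128) : setOf' m ∈ bset ↔ masks.contains m = true := by
  rw [mem_bset, List.contains_iff_mem, check_masks, List.mem_map]
  constructor
  · rintro ⟨k, hk⟩
    exact ⟨k, List.mem_range.2 k.isLt, setOf_inj (check_lt k k.isLt) hm hk⟩
  · rintro ⟨k, hk, rfl⟩
    exact ⟨⟨k, List.mem_range.1 hk⟩, rfl⟩

lemma bset_nonempty {G : Set (Fin 7)} (h : G ∈ bset) : G.Nonempty := by
  obtain ⟨k, rfl⟩ := mem_bset.1 h
  by_contra h0
  rw [Set.not_nonempty_iff_eq_empty] at h0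
  have h1 : setOf' (mk k) = setOf' 0 := by
    rw [show setOf' (mk k) = ∅ from h0]
    ext i
    simp [setOf']
  exact check_pos k k.isLt (setOf_inj (check_lt k k.isLt) (by norm_num) h1)

lemma or_lt {m n : ℕ} (hm : m < 128) (hn : n < 128) : m ||| n < 128 :=
  Nat.or_lt_two_pow (n := 7) hm hn

lemma bset_single (i : Fin 7) : {i} ∈ bset := by
  have h : setOf' (2 ^ (i : ℕ)) = {i} := by
    ext j
    show (2 ^ (i : ℕ)).testBit j = true ↔ j = i
    rw [Nat.testBit_two_pow, decide_eq_true_eq, Fin.ext_iff]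
    exact eq_comm
  rw [← h, setOf_mem_bset]
  · exact check_single i i.isLt
  · exact Nat.pow_lt_pow_right (a := 2) (by norm_num) i.isLt

lemma bset_union {G H : Set (Fin 7)} (hG : G ∈ bset) (hH : H ∈ bset) (h : (G ∩ H).Nonempty) :
    G ∪ H ∈ bset := by
  obtain ⟨k, rfl⟩ := mem_bset.1 hG
  obtain ⟨l, rfl⟩ := mem_bset.1 hH
  rw [mem, mem, ← setOf_union, setOf_mem_bset (or_lt (check_lt k k.isLt) (check_lt l l.isLt))]
  rcases check_union k k.isLt l l.isLt with h1 | h1
  · exfalso
    obtain ⟨i, hi⟩ := h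
    have hi1 : (mk k).testBit i = true := hi.1
    have hi2 : (mk l).testBit i = true := hi.2
    have : (mk k &&& mk l).testBit i = true := by
      rw [Nat.testBit_and, hi1, hi2]; rfl
    rw [h1] at this
    simp at this
  · exact h1

/-- Indices of the members. -/
noncomputable def eq18 : {G : Set (Fin 7) // G ∈ bset} ≃ Fin 18 :=
  (Equiv.ofBijective (fun k : Fin 18 => (⟨mem k, mem_bset.2 ⟨k, rfl⟩⟩ :
    {G : Set (Fin 7) // G ∈ bset})) (by
      constructor
      · intro k l h
        exact mem_inj (congrArg Subtype.val h)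
      · rintro ⟨G, hG⟩
        obtain ⟨k, hk⟩ := mem_bset.1 hG
        exact ⟨k, Subtype.ext hk⟩)).symm

lemma val_eq (u : {G : Set (Fin 7) // G ∈ bset}) : u.1 = setOf' (mk (eq18 u)) := by
  obtain ⟨k, rfl⟩ := eq18.symm.surjective u
  rw [Equiv.apply_symm_apply]
  rfl

/-- The non-nested pairs. -/
def non (u v : {G : Set (Fin 7) // G ∈ bset}) : Prop :=
  ¬ u.1 ⊆ v.1 ∧ ¬ v.1 ⊆ u.1 ∧ u.1 ∪ v.1 ∈ bset

lemma non_iff : Non eq18 non := by
  intro u v
  have hu := check_lt (eq18 u) (eq18 u).isLt
  have hv := check_lt (eq18 v) (eq18 v).isLt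
  rw [← check_non _ (eq18 u).isLt _ (eq18 v).isLt, non, val_eq u, val_eq v, setOf_subset hu,
    setOf_subset hv, ← setOf_union, setOf_mem_bset (or_lt hu hv)]

lemma th_eq (i : Fin 7) (u : {G : Set (Fin 7) // G ∈ bset}) [Decidable ({i} ⊆ u.1)] :
    th eq18 i u = if {i} ⊆ u.1 then 1 else 0 := by
  rw [th, inc]
  have : {i} ⊆ u.1 ↔ (mk (eq18 u)).testBit i = true := by
    rw [Set.singleton_subset_iff, val_eq u]
    rfl
  by_cases h : {i} ⊆ u.1
  · rw [if_pos h, if_pos (this.1 h)]; simp
  · rw [if_neg h, if_neg (fun h' => h (this.2 h'))]; simp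

/-! ### Flagness -/

/-- Compatible pairs of incomparable members. -/
def cmp (c k : ℕ) : Bool :=
  !(mk c &&& mk k == mk c) && !(mk k &&& mk c == mk k) && !(masks.contains (mk c ||| mk k))

/-- The search through the families of pairwise compatible members. -/
def chk : List ℕ → List ℕ → ℕ → Bool
  | [], ch, U => decide (ch.length < 2) || !(masks.contains U)
  | k :: l, ch, U => chk l ch U && (!(ch.all fun c => cmp c k) || chk l (k :: ch) (U ||| mk k))

theorem check_flag : chk (List.range 18) [] 0 = true := by decide +kernel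

/-- The union of the masks of a list. -/
def uni : List ℕ → ℕ → ℕ
  | [], U => U
  | k :: l, U => uni l (U ||| mk k)

lemma chk_spec (l : List ℕ) (ch : List ℕ) (U : ℕ) (h : chk l ch U = true) (A : List ℕ)
    (hA : A.Sublist l) (h1 : A.Pairwise fun c k => cmp c k = true)
    (h2 : ∀ c ∈ ch, ∀ k ∈ A, cmp c k = true) (h3 : 2 ≤ ch.length + A.length) :
    masks.contains (uni A U) = false := by
  induction l generalizing ch U A with
  | nil =>
    have : A = [] := List.sublist_nil.1 hA
    subst this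
    rw [chk] at h
    have h3' : ¬ ch.length < 2 := by
      rw [List.length_nil] at h3; omega
    simp only [h3', decide_false, Bool.false_or, Bool.not_eq_true'] at h
    rw [uni]; exact h
  | cons k l ih =>
    rw [chk, Bool.and_eq_true] at h
    cases hA with
    | cons _ hA' => exact ih ch U h.1 A hA' h1 h2 h3
    | @cons_cons A' _ _ hA' =>
      rw [uni]
      have hall : (ch.all fun c => cmp c k) = true :=
        List.all_eq_true.2 fun c hc => h2 c hc k (List.mem_cons_self)
      have h4 := h.2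
      rw [hall] at h4
      simp only [Bool.not_true, Bool.false_or] at h4
      rw [List.pairwise_cons] at h1
      refine ih (k :: ch) _ h4 A' hA' h1.2 ?_ ?_
      · intro c hc k' hk'
        rcases List.mem_cons.1 hc with rfl | hc
        · exact h1.1 k' hk'
        · exact h2 c hc k' (List.mem_cons_of_mem _ hk')
      · simp only [List.length_cons] at h3 ⊢
        omega

lemma uni_bit (l : List ℕ) (U i : ℕ) :
    (uni l U).testBit i = true ↔ U.testBit i = true ∨ ∃ k ∈ l, (mk k).testBit i = true := by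
  induction l generalizing U with
  | nil => simp [uni]
  | cons k l ih =>
    rw [uni, ih, Nat.testBit_or, Bool.or_eq_true]
    simp only [List.mem_cons, exists_eq_or_imp]
    tauto

/-- Flagness. -/
theorem flag (A : Finset {G : Set (Fin 7) // G ∈ bset}) (h2 : 2 ≤ A.card)
    (hanti : ∀ G ∈ A, ∀ H ∈ A, G ≠ H → ¬ G.1 ⊆ H.1) (hU : (⋃ G ∈ A, G.1) ∈ bset) :
    ∃ u ∈ A, ∃ v ∈ A, u ≠ v ∧ non u v := by
  classical
  by_contra hcon
  have hcon' : ∀ u ∈ A, ∀ v ∈ A, u ≠ v → u.1 ∪ v.1 ∉ bset := by
    intro u hu v hv huv h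
    exact hcon ⟨u, hu, v, hv, huv, hanti u hu v hv huv, hanti v hv u hu huv.symm, h⟩
  let l : List ℕ := (List.range 18).filter fun k => decide (∃ v ∈ A, (eq18 v : ℕ) = k)
  have hmem : ∀ k, k ∈ l ↔ ∃ v ∈ A, (eq18 v : ℕ) = k := by
    intro k
    rw [List.mem_filter, List.mem_range, decide_eq_true_eq]
    constructor
    · exact fun h => h.2
    · rintro ⟨v, hv, rfl⟩
      exact ⟨(eq18 v).isLt, v, hv, rfl⟩
  have hnd : l.Nodup := List.nodup_range.filter _
  have hlen : l.length = A.card := by
    rw [← List.toFinset_card_of_nodup hnd]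
    symm
    refine Finset.card_bij (fun v _ => (eq18 v : ℕ)) ?_ ?_ ?_
    · intro v hv
      rw [List.mem_toFinset, hmem]
      exact ⟨v, hv, rfl⟩
    · intro v _ w _ h
      exact eq18.injective (Fin.ext h)
    · intro k hk
      rw [List.mem_toFinset, hmem] at hk
      obtain ⟨v, hv, h⟩ := hk
      exact ⟨v, hv, h⟩
  have hpw : l.Pairwise fun c k => cmp c k = true := by
    refine (List.Pairwise.imp_of_mem ?_ hnd)
    intro c k hc hk hck
    obtain ⟨u, hu, rfl⟩ := (hmem c).1 hc
    obtain ⟨v, hv, rfl⟩ := (hmem k).1 hk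
    have huv : u ≠ v := by rintro rfl; exact hck rfl
    have hu' := check_lt (eq18 u) (eq18 u).isLt
    have hv' := check_lt (eq18 v) (eq18 v).isLt
    have a1 := hanti u hu v hv huv
    have a2 := hanti v hv u hu huv.symm
    have a3 := hcon' u hu v hv huv
    rw [val_eq u, val_eq v] at a1 a2 a3
    rw [setOf_subset hu'] at a1
    rw [setOf_subset hv'] at a2
    rw [← setOf_union, setOf_mem_bset (or_lt hu' hv')] at a3
    rw [cmp]
    simp only [Bool.and_eq_true, Bool.not_eq_true', beq_eq_false_iff_ne, ne_eq]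
    exact ⟨⟨a1, a2⟩, by simpa using a3⟩
  have h3 := chk_spec _ [] 0 check_flag l (List.filter_sublist) hpw (by simp) (by simpa [hlen])
  obtain ⟨k, hk⟩ := mem_bset.1 hU
  have hku := check_lt k k.isLt
  have h4 : uni l 0 = mk k := by
    apply Nat.eq_of_testBit_eq
    intro i
    rw [Bool.eq_iff_iff, uni_bit]
    simp only [Nat.zero_testBit, Bool.false_eq_true, false_or]
    by_cases hi : i < 7
    · have h5 : (⟨i, hi⟩ : Fin 7) ∈ mem k ↔ (⟨i, hi⟩ : Fin 7) ∈ ⋃ G ∈ A, G.1 := by rw [hk]
      have h6 : (⟨i, hi⟩ : Fin 7) ∈ mem k ↔ (mk k).testBit i = true := Iff.rfl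
      rw [← h6, h5, Set.mem_iUnion₂]
      constructor
      · rintro ⟨c, hc, hci⟩
        obtain ⟨v, hv, rfl⟩ := (hmem c).1 hc
        refine ⟨v, hv, ?_⟩
        rw [val_eq v]; exact hci
      · rintro ⟨v, hv, hvi⟩
        refine ⟨eq18 v, (hmem _).2 ⟨v, hv, rfl⟩, ?_⟩
        rw [val_eq v] at hvi; exact hvi
    · rw [bits_ge' hku (by omega)]
      constructor
      · rintro ⟨c, hc, hci⟩
        obtain ⟨v, hv, rfl⟩ := (hmem c).1 hc
        rw [bits_ge' (check_lt _ (eq18 v).isLt) (by omega)] at hci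
        exact hci
      · intro h; exact absurd h (by simp)
  rw [h4, check_masks, ← Bool.not_eq_true, List.contains_iff_mem] at h3
  exact h3 (List.mem_map.2 ⟨k, List.mem_range.2 k.isLt, rfl⟩)

end Pool.Agent.X221.Koszul.Cert
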